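import Mathlib
import Pool.Agent.TH539.MQRatio
import Pool.Agent.Y385.SPI.Small

/-!
# Ratios of small height in a finite set of nonzero rational numbers
-/

set_option autoImplicit false

namespace Pool.Agent.Zk30.FU

open Pool.Agent.TH539.MQ Pool.Agent.Y385.SPI

lemma inv_mem_box {n : ℕ} {x : ℚ} (hx : x ∈ box n) (h0 : x ≠ 0) : x⁻¹ ∈ box n := by
  obtain ⟨a, d, h1, h2, h3, rfl⟩ := box_rep hx
  have ha : a ≠ 0 := by
    rintro rfl
    exact h0 (by simp)
  have h4 : a.natAbs ≤ n := by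
    have : ((a.natAbs : ℕ) : ℤ) = |a| := Int.natCast_natAbs a
    omega
  have h5 : 1 ≤ a.natAbs := Int.natAbs_pos.2 ha
  have h6 := mem_box' (n := n) (a.sign * d) a.natAbs (by
    rw [abs_mul, Int.abs_sign_of_ne_zero ha, one_mul, Nat.abs_cast]
    exact_mod_cast h3) h5 h4
  convert h6 using 1
  have e1 : ((a.natAbs : ℕ) : ℚ) = (a.sign : ℚ) * a := by
    have : ((a.natAbs : ℕ) : ℤ) = a.sign * a := by
      rw [Int.natCast_natAbs, ← Int.sign_mul_self_eq_abs]
    rw [← Int.cast_natCast, this, Int.cast_mul]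
  have hs : (a.sign : ℚ) ≠ 0 := by
    have : a.sign ≠ 0 := fun h => ha (Int.sign_eq_zero_iff_zero.1 h)
    exact_mod_cast this
  rw [e1, inv_div]
  push_cast
  rw [mul_div_mul_left _ _ hs]

/-- the number of pairs with ratio `q` -/
def rr (X : Finset ℚ) (q : ℚ) : ℕ := ((X ×ˢ X).filter fun p => p.1 = q * p.2).card

/-- the nonzero elements of the box -/
noncomputable def bx (R : ℕ) : Finset ℚ := (box R).filter (· ≠ 0)

lemma mem_bx {R : ℕ} {q : ℚ} : q ∈ bx R ↔ q ∈ box R ∧ q ≠ 0 := by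
  unfold bx
  rw [Finset.mem_filter]

theorem rr_bound (ε : ℝ) (hε : 0 < ε) : ∃ K : ℝ, 0 < K ∧ ∀ R : ℕ, 1 ≤ R → ∀ X : Finset ℚ,
    (∀ x ∈ X, x ≠ 0) →
    ∑ q ∈ bx R, (rr X q : ℝ) ^ 2 ≤ K * ((R : ℝ) * X.card) ^ ε * (X.card : ℝ) ^ 2 := by
  classical
  obtain ⟨K, hK, hb⟩ := rep_bound ε hε
  refine ⟨32 * K, by positivity, fun R hR X hX => ?_⟩
  rcases X.eq_empty_or_nonempty with rfl | hXn
  · have : ∀ q ∈ bx R, (rr ∅ q : ℝ) ^ 2 = 0 := by
      intro q _
      simp [rr]
    rw [Finset.sum_eq_zero this]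
    positivity
  set D : ℕ := ∏ x ∈ X, x.den with hD
  have hD0 : (D : ℚ) ≠ 0 := by
    have : D ≠ 0 := Finset.prod_ne_zero_iff.2 fun x _ => x.den_ne_zero
    exact_mod_cast this
  have hDpos : (0 : ℚ) < D := lt_of_le_of_ne (Nat.cast_nonneg _) (Ne.symm hD0)
  let f : ℚ → ℕ := fun x => (|x| * D).num.natAbs
  have hf : ∀ x ∈ X, ((f x : ℕ) : ℚ) = |x| * D := by
    intro x hx
    obtain ⟨e, he⟩ : x.den ∣ D := Finset.dvd_prod_of_mem _ hx
    have h1 : |x| * D = ((|x.num| * e : ℤ) : ℚ) := by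
      have h2 : x * x.den = x.num := Rat.mul_den_eq_num x
      rw [he]
      push_cast
      rw [← h2, abs_mul, Nat.abs_cast]
      ring
    have h2 : (|x| * D).num = |x.num| * e := by rw [h1, Rat.num_intCast]
    simp only [f]
    have h3 : (((|x| * D).num.natAbs : ℕ) : ℤ) = |x.num| * e := by
      rw [h2, Int.natCast_natAbs, abs_of_nonneg (by positivity)]
    rw [← Int.cast_natCast, h3, ← h1]
  set A : Finset ℕ := X.image f with hA
  have hA0 : ∀ a ∈ A, a ≠ 0 := by
    intro a ha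
    obtain ⟨x, hx, rfl⟩ := Finset.mem_image.1 ha
    intro h
    have h1 := hf x hx
    rw [h, Nat.cast_zero] at h1
    exact mul_ne_zero (abs_ne_zero.2 (hX x hx)) hD0 h1.symm
  have hAn : A.Nonempty := hXn.image f
  have hfib : ∀ a : ℕ, (X.filter fun x => f x = a).card ≤ 2 := by
    intro a
    have hsub : (X.filter fun x => f x = a) ⊆ {(a : ℚ) / D, -((a : ℚ) / D)} := by
      intro x hx
      rw [Finset.mem_filter] at hx
      have h1 := hf x hx.1
      rw [hx.2] at h1
      have h2 : |x| = (a : ℚ) / D := by rw [h1, mul_div_cancel_right₀ _ hD0]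
      rw [Finset.mem_insert, Finset.mem_singleton]
      rcases abs_choice x with h | h
      · left; rw [← h2, h]
      · right; rw [← h2, h, neg_neg]
    exact (Finset.card_le_card hsub).trans Finset.card_le_two
  let pq : ℚ → ℕ × ℕ := fun q => (q.num.natAbs, q.den)
  have hpq : ∀ q ∈ bx R, pq q ∈ PH R := by
    intro q hq
    obtain ⟨h1, h2⟩ := mem_bx.1 hq
    obtain ⟨h3, h4⟩ := box_num h1
    unfold PH
    rw [Finset.mem_filter, Finset.mem_product, Finset.mem_Icc, Finset.mem_Icc]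
    refine ⟨⟨⟨Int.natAbs_pos.2 (Rat.num_ne_zero.2 h2), ?_⟩, ⟨q.den_pos, by exact_mod_cast h4⟩⟩,
      q.reduced⟩
    have : ((q.num.natAbs : ℕ) : ℝ) ≤ R := by
      rw [Nat.cast_natAbs]; push_cast; exact h3
    exact_mod_cast this
  have hrr : ∀ q ∈ bx R, rr X q ≤ 4 * rep A (pq q) := by
    intro q hq
    unfold rr
    have h1 := Finset.card_le_mul_card_image (f := fun p : ℚ × ℚ => (f p.1, f p.2))
      ((X ×ˢ X).filter fun p => p.1 = q * p.2) 4 (by
        intro b _
        have hsub : (((X ×ˢ X).filter fun p => p.1 = q * p.2).filter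
            fun p => (f p.1, f p.2) = b) ⊆
            (X.filter fun x => f x = b.1) ×ˢ (X.filter fun x => f x = b.2) := by
          intro p hp
          rw [Finset.mem_filter, Finset.mem_filter, Finset.mem_product] at hp
          rw [Finset.mem_product, Finset.mem_filter, Finset.mem_filter]
          refine ⟨⟨hp.1.1.1, ?_⟩, ⟨hp.1.1.2, ?_⟩⟩
          · rw [← hp.2]
          · rw [← hp.2]
        refine (Finset.card_le_card hsub).trans ?_
        rw [Finset.card_product]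
        exact Nat.mul_le_mul (hfib _) (hfib _))
    refine h1.trans (Nat.mul_le_mul_left 4 (Finset.card_le_card ?_))
    intro b hb'
    rw [Finset.mem_image] at hb'
    obtain ⟨p, hp, rfl⟩ := hb'
    rw [Finset.mem_filter, Finset.mem_product] at hp
    rw [Finset.mem_filter, Finset.mem_product]
    refine ⟨⟨Finset.mem_image_of_mem f hp.1.1, Finset.mem_image_of_mem f hp.1.2⟩, ?_⟩
    simp only [pq]
    have g1 := hf p.1 hp.1.1
    have g2 := hf p.2 hp.1.2
    have g3 : ((q.den * f p.1 : ℕ) : ℚ) = ((q.num.natAbs * f p.2 : ℕ) : ℚ) := by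
      push_cast
      rw [g1, g2, hp.2, abs_mul]
      have g4 : |q| * q.den = |(q.num : ℚ)| := by
        rw [← Rat.mul_den_eq_num q, abs_mul, Nat.abs_cast]
      have g5 : ((q.num.natAbs : ℕ) : ℚ) = |(q.num : ℚ)| := by
        rw [Nat.cast_natAbs]; push_cast; rfl
      rw [g5, ← g4]
      ring
    exact_mod_cast g3
  have hsum : ∑ q ∈ bx R, (rep A (pq q) : ℝ) ^ 2 ≤ 2 * ∑ p ∈ PH R, (rep A p : ℝ) ^ 2 := by
    rw [← Finset.sum_fiberwise_of_maps_to hpq, Finset.mul_sum]
    refine Finset.sum_le_sum fun p _ => ?_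
    have h1 : ∑ q ∈ (bx R).filter (fun q => pq q = p), (rep A (pq q) : ℝ) ^ 2 =
        ((bx R).filter (fun q => pq q = p)).card * (rep A p : ℝ) ^ 2 := by
      rw [← nsmul_eq_mul, ← Finset.sum_const]
      refine Finset.sum_congr rfl fun q hq => ?_
      rw [(Finset.mem_filter.1 hq).2]
    rw [h1]
    refine mul_le_mul_of_nonneg_right ?_ (by positivity)
    have hsub : (bx R).filter (fun q => pq q = p) ⊆ {(p.1 : ℚ) / p.2, -((p.1 : ℚ) / p.2)} := by
      intro q hq
      rw [Finset.mem_filter] at hq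
      rw [Finset.mem_insert, Finset.mem_singleton]
      have e1 : (p.1 : ℚ) = |(q.num : ℚ)| := by
        rw [← hq.2]
        simp only [pq]
        rw [Nat.cast_natAbs]; push_cast; rfl
      have e2 : (p.2 : ℚ) = q.den := by rw [← hq.2]
      have e3 : |q| = (p.1 : ℚ) / p.2 := by
        rw [e1, e2]
        conv_lhs => rw [← Rat.num_div_den q]
        rw [abs_div, Nat.abs_cast]
      rcases abs_choice q with h | h
      · left; rw [← e3, h]
      · right; rw [← e3, h, neg_neg]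
    exact_mod_cast (Finset.card_le_card hsub).trans Finset.card_le_two
  have hcard : (A.card : ℝ) ≤ X.card := by exact_mod_cast Finset.card_image_le
  have hR0 : (0 : ℝ) ≤ R := Nat.cast_nonneg _
  calc ∑ q ∈ bx R, (rr X q : ℝ) ^ 2 ≤ ∑ q ∈ bx R, 16 * (rep A (pq q) : ℝ) ^ 2 := by
        refine Finset.sum_le_sum fun q hq => ?_
        have h1 : (rr X q : ℝ) ≤ 4 * rep A (pq q) := by exact_mod_cast hrr q hq
        calc (rr X q : ℝ) ^ 2 ≤ (4 * rep A (pq q)) ^ 2 := pow_le_pow_left₀ (by positivity) h1 2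
          _ = 16 * (rep A (pq q) : ℝ) ^ 2 := by ring
    _ = 16 * ∑ q ∈ bx R, (rep A (pq q) : ℝ) ^ 2 := by rw [Finset.mul_sum]
    _ ≤ 16 * (2 * ∑ p ∈ PH R, (rep A p : ℝ) ^ 2) := by gcongr
    _ ≤ 16 * (2 * (K * ((R : ℝ) * A.card) ^ ε * (A.card : ℝ) ^ 2)) := by
        gcongr
        exact hb R hR A hA0 hAn
    _ = 32 * K * ((R : ℝ) * A.card) ^ ε * (A.card : ℝ) ^ 2 := by ring
    _ ≤ _ := by gcongr

end Pool.Agent.Zk30.FU
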