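import Mathlib
import Pool.Agent.TH551.SU.CS

/-!
# Factorisations into short sums, over a subfield

`G` is a field, `K` a subfield, `U` a multiplicative set of elements of `G` such that elements of
`U` with pairwise ratios outside of `K` are linearly independent over `K`. A short element is a sum
of few products of an element of `K` and an element of `U`. If `m = a b` for infinitely many pairs
of short elements `a`, `b` with boundedly many terms, and if every `a` has a term in `K`, then the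
ratio of two of the elements `a` is in `K`.
-/

set_option autoImplicit false

namespace Pool.Agent.Zk30.FU

open Polynomial

section

variable {G : Type} [Field G] (K : Subfield G)

/-- elements of `U` with ratios outside of `K` are linearly independent over `K` -/
def Indep (U : Set G) : Prop :=
  ∀ (m : ℕ) (f : Fin m → G), (∀ i, f i ∈ U) → (∀ i j, i ≠ j → f i / f j ∉ K) →
    ∀ c : Fin m → K, ∑ i, (c i : G) * f i = 0 → ∀ i, c i = 0

/-- weights which respect the multiplicative relations modulo `K` -/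
def Wts : Prop :=
  ∀ (ι : Type) [Fintype ι] (u : ι → G), (∀ i, u i ≠ 0) → ∃ l : ι → ℕ,
    (∀ i j k m, u i * u j / (u k * u m) ∈ K → l i + l j = l k + l m) ∧
    (∀ i j, u i / u j ∈ K ↔ l i = l j)

variable {K}

/-- the sums over the classes vanish -/
lemma classes {U : Set G} (hU0 : ∀ x ∈ U, x ≠ 0) (hI : Indep K U) {ι : Type} (A : Finset ι)
    (a : ι → K) (g : ι → G) (w : ι → ℕ) (hg : ∀ i ∈ A, g i ∈ U)
    (hw : ∀ i ∈ A, ∀ j ∈ A, g i / g j ∈ K → w i = w j) (hsum : ∑ i ∈ A, (a i : G) * g i = 0) :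
    ∑ i ∈ A, C ((a i : G) * g i) * (X : G[X]) ^ (w i) = 0 := by
  refine Pool.Agent.TH551.SU.CS.core K A a g w (fun i hi => hU0 _ (hg i hi)) hw hsum ?_
  intro m f hf c hc
  exact hI m (fun i => g (f i)) (fun i => hg _ (f i).2) hf c hc

/-- the polynomial of a short sum with weights -/
noncomputable def pol {α : Type} (I : Finset α) (c : α → K) (u : α → G) (w : α → ℕ) : G[X] :=
  ∑ i ∈ I, C ((c i : G) * u i) * (X : G[X]) ^ (w i)

lemma pol_eval {α : Type} (I : Finset α) (c : α → K) (u : α → G) (w : α → ℕ) :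
    (pol I c u w).eval 1 = ∑ i ∈ I, (c i : G) * u i := by
  unfold pol
  rw [eval_finsetSum]
  refine Finset.sum_congr rfl fun i _ => ?_
  simp

lemma pol_coeff {α : Type} (I : Finset α) (c : α → K) (u : α → G) (w : α → ℕ) (n : ℕ) :
    (pol I c u w).coeff n = ∑ i ∈ I with w i = n, (c i : G) * u i := by
  unfold pol
  rw [finsetSum_coeff, Finset.sum_filter]
  refine Finset.sum_congr rfl fun i _ => ?_
  rw [coeff_C_mul, coeff_X_pow]
  by_cases h : w i = n
  · rw [if_pos h, if_pos h.symm, mul_one]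
  · rw [if_neg h, if_neg (fun h' => h h'.symm), mul_zero]

lemma pol_mul {α β : Type} (I : Finset α) (c : α → K) (u : α → G) (w : α → ℕ) (I' : Finset β)
    (c' : β → K) (u' : β → G) (w' : β → ℕ) :
    pol I c u w * pol I' c' u' w' =
      pol (I ×ˢ I') (fun p => c p.1 * c' p.2) (fun p => u p.1 * u' p.2)
        (fun p => w p.1 + w' p.2) := by
  unfold pol
  rw [Finset.sum_mul_sum, ← Finset.sum_product']
  refine Finset.sum_congr rfl fun p _ => ?_
  rw [MulMemClass.coe_mul, pow_add]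
  simp only [map_mul]
  ring

/-- an identity between two short sums holds for the polynomials -/
lemma pol_eq {U : Set G} (hU0 : ∀ x ∈ U, x ≠ 0) (hI : Indep K U) {α β : Type} (I : Finset α)
    (c : α → K) (u : α → G) (w : α → ℕ) (J : Finset β) (d : β → K) (v : β → G) (z : β → ℕ)
    (hu : ∀ i ∈ I, u i ∈ U) (hv : ∀ j ∈ J, v j ∈ U)
    (h1 : ∀ i ∈ I, ∀ j ∈ I, u i / u j ∈ K → w i = w j)
    (h2 : ∀ i ∈ J, ∀ j ∈ J, v i / v j ∈ K → z i = z j)
    (h3 : ∀ i ∈ I, ∀ j ∈ J, u i / v j ∈ K → w i = z j)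
    (hsum : ∑ i ∈ I, (c i : G) * u i = ∑ j ∈ J, (d j : G) * v j) :
    pol I c u w = pol J d v z := by
  classical
  have key := classes hU0 hI (I.disjSum J) (Sum.elim c (fun j => - d j)) (Sum.elim u v)
    (Sum.elim w z) (by
      rintro (i | j) hi
      · exact hu i (Finset.inl_mem_disjSum.1 hi)
      · exact hv j (Finset.inr_mem_disjSum.1 hi)) (by
      rintro (i | i) hi (j | j) hj h
      · exact h1 i (Finset.inl_mem_disjSum.1 hi) j (Finset.inl_mem_disjSum.1 hj) h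
      · exact h3 i (Finset.inl_mem_disjSum.1 hi) j (Finset.inr_mem_disjSum.1 hj) h
      · refine (h3 j (Finset.inl_mem_disjSum.1 hj) i (Finset.inr_mem_disjSum.1 hi) ?_).symm
        have := K.inv_mem h
        rwa [inv_div] at this
      · exact h2 i (Finset.inr_mem_disjSum.1 hi) j (Finset.inr_mem_disjSum.1 hj) h) (by
      rw [Finset.sum_disjSum]
      simp only [Sum.elim_inl, Sum.elim_inr, NegMemClass.coe_neg, neg_mul, Finset.sum_neg_distrib]
      rw [hsum]; ring)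
  rw [Finset.sum_disjSum] at key
  simp only [Sum.elim_inl, Sum.elim_inr, NegMemClass.coe_neg, neg_mul, map_neg,
    Finset.sum_neg_distrib] at key
  unfold pol
  linear_combination key

/-- a divisor of a power of `X` without vanishing subsums has only one exponent -/
lemma mono_pos {α : Type} (I : Finset α) (c : α → K) (u : α → G) (W : α → ℕ) (N : ℕ)
    (hd : pol I c u W ∣ (X : G[X]) ^ N)
    (hmin : ∀ T ⊆ I, T.Nonempty → ∑ i ∈ T, (c i : G) * u i ≠ 0) :
    ∃ n, (∀ i ∈ I, W i = n) ∧ (pol I c u W).natDegree = n := by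
  classical
  obtain ⟨n, _, hass⟩ := (dvd_prime_pow prime_X _).1 hd
  obtain ⟨e, he⟩ := hass.symm
  obtain ⟨r, hr, hr2⟩ := Polynomial.isUnit_iff.1 e.isUnit
  have hr0 : r ≠ 0 := hr.ne_zero
  have hp : pol I c u W = C r * X ^ n := by rw [← he, ← hr2, mul_comm]
  refine ⟨n, ?_, ?_⟩
  · intro i hi
    by_contra hne
    have h1 : (pol I c u W).coeff (W i) ≠ 0 := by
      rw [pol_coeff]
      exact hmin _ (Finset.filter_subset _ _) ⟨i, Finset.mem_filter.2 ⟨hi, rfl⟩⟩
    apply h1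
    rw [hp, coeff_C_mul, coeff_X_pow, if_neg hne, mul_zero]
  · rw [hp, natDegree_C_mul_X_pow _ _ hr0]

/-- the positions of the terms of the first factor are determined by a pattern -/
lemma stage1 {U : Set G} (hU0 : ∀ x ∈ U, x ≠ 0) (hUm : ∀ x ∈ U, ∀ y ∈ U, x * y ∈ U)
    (hI : Indep K U) (hW : Wts K) {α β γ : Type} [Fintype α] [Fintype β] (I : Finset α)
    (c : α → K) (u v : α → G) (I' : Finset β) (c' : β → K) (u' v' : β → G) (J : Finset γ)
    (d : γ → K) (w : γ → G) (hu : ∀ i, u i ∈ U) (hu' : ∀ i, u' i ∈ U) (hv : ∀ i, v i ∈ U)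
    (hv' : ∀ i, v' i ∈ U) (hw : ∀ i, w i ∈ U)
    (hm : (∑ i ∈ I, (c i : G) * u i) * (∑ i ∈ I', (c' i : G) * u' i) = ∑ z ∈ J, (d z : G) * w z)
    (hm0 : ∑ z ∈ J, (d z : G) * w z ≠ 0)
    (hR : ∀ i ∈ I, ∀ j ∈ I', ∀ k ∈ I, ∀ l ∈ I', u i * u' j / (u k * u' l) ∈ K →
      v i * v' j / (v k * v' l) ∈ K)
    (hρ : ∀ i ∈ I, ∀ j ∈ I', ∀ z ∈ J, u i * u' j / w z ∈ K → v i * v' j / w z ∈ K)
    (hmin : ∀ T ⊆ I, T.Nonempty → ∑ i ∈ T, (c i : G) * u i ≠ 0)
    (hmin' : ∀ T ⊆ I', T.Nonempty → ∑ i ∈ T, (c' i : G) * u' i ≠ 0)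
    (i0 : α) (hi0 : i0 ∈ I) (hi0K : u i0 / v i0 ∈ K) :
    (∀ i ∈ I, u i / v i ∈ K) ∧ ∀ i ∈ I', u' i / v' i ∈ K := by
  classical
  obtain ⟨l, hl1, hl2⟩ := hW ((α ⊕ β) ⊕ (α ⊕ β)) (Sum.elim (Sum.elim u u') (Sum.elim v v')) (by
    rintro ((i | i) | (i | i))
    · exact hU0 _ (hu i)
    · exact hU0 _ (hu' i)
    · exact hU0 _ (hv i)
    · exact hU0 _ (hv' i))
  obtain ⟨M, hM⟩ : ∃ M : ℕ, ∀ x, l x ≤ M :=
    ⟨Finset.univ.sup l, fun x => Finset.le_sup (Finset.mem_univ x)⟩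
  set W : α → ℕ := fun i => l (Sum.inl (Sum.inl i)) + (M - l (Sum.inr (Sum.inl i))) with hWdef
  set W' : β → ℕ := fun i => l (Sum.inl (Sum.inr i)) + (M - l (Sum.inr (Sum.inr i))) with hWdef'
  have e1 : ∀ i ∈ I, ∀ j ∈ I', ∀ k ∈ I, ∀ m ∈ I', u i * u' j / (u k * u' m) ∈ K →
      W i + W' j = W k + W' m := by
    intro i hi j hj k hk m hm h
    have f1 := hl1 (Sum.inl (Sum.inl i)) (Sum.inl (Sum.inr j)) (Sum.inl (Sum.inl k))
      (Sum.inl (Sum.inr m)) h
    have f2 := hl1 (Sum.inr (Sum.inl i)) (Sum.inr (Sum.inr j)) (Sum.inr (Sum.inl k))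
      (Sum.inr (Sum.inr m)) (hR i hi j hj k hk m hm h)
    have g1 := hM (Sum.inr (Sum.inl i))
    have g2 := hM (Sum.inr (Sum.inr j))
    have g3 := hM (Sum.inr (Sum.inl k))
    have g4 := hM (Sum.inr (Sum.inr m))
    simp only [hWdef, hWdef']
    omega
  have e2 : ∀ i ∈ I, ∀ j ∈ I', ∀ z ∈ J, u i * u' j / w z ∈ K → W i + W' j = 2 * M := by
    intro i hi j hj z hz h
    have h1 := hρ i hi j hj z hz h
    have h2 : u i * u' j / (v i * v' j) ∈ K := by
      have h3 := K.div_mem h h1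
      rwa [div_div_div_cancel_right₀ (hU0 _ (hw z))] at h3
    have f1 := hl1 (Sum.inl (Sum.inl i)) (Sum.inl (Sum.inr j)) (Sum.inr (Sum.inl i))
      (Sum.inr (Sum.inr j)) h2
    have g1 := hM (Sum.inr (Sum.inl i))
    have g2 := hM (Sum.inr (Sum.inr j))
    simp only [hWdef, hWdef']
    omega
  have e3 : pol I c u W * pol I' c' u' W' = pol J d w (fun _ => 2 * M) := by
    rw [pol_mul]
    refine pol_eq hU0 hI _ _ _ _ _ _ _ _ ?_ (fun j _ => hw j) ?_ (fun _ _ _ _ _ => rfl) ?_ ?_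
    · intro p _
      exact hUm _ (hu p.1) _ (hu' p.2)
    · intro p hp q hq h
      rw [Finset.mem_product] at hp hq
      exact e1 p.1 hp.1 p.2 hp.2 q.1 hq.1 q.2 hq.2 h
    · intro p hp z hz h
      rw [Finset.mem_product] at hp
      exact e2 p.1 hp.1 p.2 hp.2 z hz h
    · rw [← hm, Finset.sum_mul_sum, ← Finset.sum_product']
      refine Finset.sum_congr rfl fun p _ => ?_
      rw [MulMemClass.coe_mul]
      ring
  have e4 : pol J d w (fun _ => 2 * M) = C (∑ z ∈ J, (d z : G) * w z) * X ^ (2 * M) := by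
    unfold pol
    rw [map_sum, Finset.sum_mul]
  have hunit : IsUnit (C (∑ z ∈ J, (d z : G) * w z)) := by
    rw [isUnit_C]; exact isUnit_iff_ne_zero.2 hm0
  have e5 : pol I c u W ∣ X ^ (2 * M) := by
    have h1 : pol I c u W ∣ C (∑ z ∈ J, (d z : G) * w z) * X ^ (2 * M) := ⟨_, by rw [← e4, ← e3]⟩
    exact (hunit.dvd_mul_left).1 h1
  have e5' : pol I' c' u' W' ∣ X ^ (2 * M) := by
    have h1 : pol I' c' u' W' ∣ C (∑ z ∈ J, (d z : G) * w z) * X ^ (2 * M) :=
      ⟨pol I c u W, by rw [← e4, ← e3, mul_comm]⟩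
    exact (hunit.dvd_mul_left).1 h1
  obtain ⟨n, e6, hdeg⟩ := mono_pos I c u W (2 * M) e5 hmin
  obtain ⟨n', e6', hdeg'⟩ := mono_pos I' c' u' W' (2 * M) e5' hmin'
  have e7 : n + n' = 2 * M := by
    have h1 : pol I c u W * pol I' c' u' W' ≠ 0 := by
      rw [e3, e4]
      exact mul_ne_zero (C_ne_zero.2 hm0) (pow_ne_zero _ X_ne_zero)
    have h2 := congrArg natDegree e3
    rw [e4, natDegree_C_mul_X_pow _ _ hm0,
      natDegree_mul (left_ne_zero_of_mul h1) (right_ne_zero_of_mul h1), hdeg, hdeg'] at h2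
    exact h2
  have hi0W : W i0 = M := by
    have h3 : l (Sum.inl (Sum.inl i0)) = l (Sum.inr (Sum.inl i0)) :=
      (hl2 (Sum.inl (Sum.inl i0)) (Sum.inr (Sum.inl i0))).1 hi0K
    have g2 := hM (Sum.inr (Sum.inl i0))
    simp only [hWdef]
    omega
  have hn : n = M := by rw [← e6 i0 hi0]; exact hi0W
  constructor
  · intro i hi
    have h1 := e6 i hi
    have h4 : l (Sum.inl (Sum.inl i)) = l (Sum.inr (Sum.inl i)) := by
      have g1 := hM (Sum.inr (Sum.inl i))
      simp only [hWdef] at h1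
      omega
    exact (hl2 (Sum.inl (Sum.inl i)) (Sum.inr (Sum.inl i))).2 h4
  · intro i hi
    have h1 := e6' i hi
    have h4 : l (Sum.inl (Sum.inr i)) = l (Sum.inr (Sum.inr i)) := by
      have g1 := hM (Sum.inr (Sum.inr i))
      simp only [hWdef'] at h1
      omega
    exact (hl2 (Sum.inl (Sum.inr i)) (Sum.inr (Sum.inr i))).2 h4

/-- finitely many divisors up to scalars, for fixed positions -/
lemma stage2 {U : Set G} (hU0 : ∀ x ∈ U, x ≠ 0) (hUm : ∀ x ∈ U, ∀ y ∈ U, x * y ∈ U)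
    (hI : Indep K U) (hW : Wts K) {α β : Type} [Fintype α] [Fintype β] (I : Finset α)
    (u : α → G) (I' : Finset β) (u' : β → G) (hu : ∀ i, u i ∈ U) (hu' : ∀ i, u' i ∈ U)
    (i0 : α) (hi0 : i0 ∈ I) (hi0K : u i0 ∈ K) {σ : Type} [Infinite σ] (c : σ → α → K)
    (c' : σ → β → K) (m : G) (hm0 : m ≠ 0)
    (hm : ∀ s, (∑ i ∈ I, (c s i : G) * u i) * (∑ i ∈ I', (c' s i : G) * u' i) = m)
    (hmin : ∀ s, ∀ T ⊆ I, T.Nonempty → ∑ i ∈ T, (c s i : G) * u i ≠ 0) :
    ∃ s t, s ≠ t ∧ (∑ i ∈ I, (c s i : G) * u i) / (∑ i ∈ I, (c t i : G) * u i) ∈ K := by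
  classical
  obtain ⟨l, hl1, hl2⟩ := hW (α ⊕ β) (Sum.elim u u') (by
    rintro (i | i)
    · exact hU0 _ (hu i)
    · exact hU0 _ (hu' i))
  set w : α → ℕ := fun i => l (Sum.inl i) with hw
  set w' : β → ℕ := fun i => l (Sum.inr i) with hw'
  set b : σ → G[X] := fun s => pol I (c s) u w with hb
  set b' : σ → G[X] := fun s => pol I' (c' s) u' w' with hb'
  have e0 : ∀ s t, b s * b' s = b t * b' t := by
    intro s t
    rw [hb, hb']
    simp only
    rw [pol_mul, pol_mul]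
    have hcl : ∀ p ∈ I ×ˢ I', ∀ q ∈ I ×ˢ I', u p.1 * u' p.2 / (u q.1 * u' q.2) ∈ K →
        w p.1 + w' p.2 = w q.1 + w' q.2 := fun p _ q _ h =>
      hl1 (Sum.inl p.1) (Sum.inr p.2) (Sum.inl q.1) (Sum.inr q.2) h
    refine pol_eq hU0 hI _ _ _ _ _ _ _ _ (fun p _ => hUm _ (hu p.1) _ (hu' p.2))
      (fun p _ => hUm _ (hu p.1) _ (hu' p.2)) hcl hcl hcl ?_
    have hs : ∀ s, ∑ p ∈ I ×ˢ I', ((c s p.1 * c' s p.2 : K) : G) * (u p.1 * u' p.2) = m := by
      intro s
      rw [← hm s, Finset.sum_mul_sum, ← Finset.sum_product']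
      refine Finset.sum_congr rfl fun p _ => ?_
      rw [MulMemClass.coe_mul]
      ring
    rw [hs s, hs t]
  obtain ⟨s0⟩ : Nonempty σ := inferInstance
  set M : G[X] := b s0 * b' s0 with hM
  have hev : ∀ s, (b s).eval 1 = ∑ i ∈ I, (c s i : G) * u i := fun s => pol_eval _ _ _ _
  have hev' : ∀ s, (b' s).eval 1 = ∑ i ∈ I', (c' s i : G) * u' i := fun s => pol_eval _ _ _ _
  have hM0 : M ≠ 0 := by
    intro h
    have h1 : M.eval 1 = 0 := by rw [h, eval_zero]
    rw [hM, eval_mul, hev, hev', hm] at h1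
    exact hm0 h1
  have hdvd : ∀ s, b s ∣ M := fun s => ⟨b' s, by rw [hM, e0 s0 s]⟩
  have hb0 : ∀ s, b s ≠ 0 := fun s h => hM0 (by
    have := hdvd s
    rw [h] at this
    exact zero_dvd_iff.1 this)
  have hfin : (Set.Iic (UniqueFactorizationMonoid.normalizedFactors M)).Finite := Set.finite_Iic _
  have : Finite (Set.Iic (UniqueFactorizationMonoid.normalizedFactors M)) := hfin
  obtain ⟨s, t, hst, he⟩ := Finite.exists_ne_map_eq_of_infinite
    (fun s => (⟨UniqueFactorizationMonoid.normalizedFactors (b s),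
      (UniqueFactorizationMonoid.dvd_iff_normalizedFactors_le_normalizedFactors (hb0 s) hM0).1
        (hdvd s)⟩ : Set.Iic (UniqueFactorizationMonoid.normalizedFactors M)))
  have he2 : UniqueFactorizationMonoid.normalizedFactors (b s) =
      UniqueFactorizationMonoid.normalizedFactors (b t) := congrArg Subtype.val he
  have hass : Associated (b s) (b t) :=
    (UniqueFactorizationMonoid.associated_iff_normalizedFactors_eq_normalizedFactors (hb0 s)
      (hb0 t)).2 he2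
  obtain ⟨e, he3⟩ := hass
  obtain ⟨r, hr, hr2⟩ := Polynomial.isUnit_iff.1 e.isUnit
  have hK : ∀ s, ∑ i ∈ I with w i = w i0, (c s i : G) * u i ∈ K := by
    intro s
    refine K.sum_mem fun i hi => ?_
    rw [Finset.mem_filter] at hi
    have h1 : u i / u i0 ∈ K := (hl2 (Sum.inl i) (Sum.inl i0)).2 hi.2
    have h2 : u i ∈ K := by
      have := K.mul_mem h1 hi0K
      rwa [div_mul_cancel₀ _ (hU0 _ (hu i0))] at this
    exact K.mul_mem (c s i).2 h2
  have hK0 : ∀ s, ∑ i ∈ I with w i = w i0, (c s i : G) * u i ≠ 0 := fun s =>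
    hmin s _ (Finset.filter_subset _ _) ⟨i0, Finset.mem_filter.2 ⟨hi0, rfl⟩⟩
  have h5 : (∑ i ∈ I with w i = w i0, (c s i : G) * u i) * r =
      ∑ i ∈ I with w i = w i0, (c t i : G) * u i := by
    have h6 := congrArg (fun p : G[X] => p.coeff (w i0)) he3
    rw [← hr2, coeff_mul_C, hb] at h6
    simp only at h6
    rw [pol_coeff, pol_coeff] at h6
    exact h6
  have hrK : r ∈ K := by
    have h7 : r = (∑ i ∈ I with w i = w i0, (c t i : G) * u i) /
        (∑ i ∈ I with w i = w i0, (c s i : G) * u i) := by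
      rw [← h5, mul_div_cancel_left₀ _ (hK0 s)]
    rw [h7]
    exact K.div_mem (hK t) (hK s)
  refine ⟨t, s, hst.symm, ?_⟩
  have h8 : (∑ i ∈ I, (c s i : G) * u i) * r = ∑ i ∈ I, (c t i : G) * u i := by
    have h9 := congrArg (fun p : G[X] => p.eval 1) he3
    rw [← hr2, eval_mul, eval_C, hev, hev] at h9
    exact h9
  rw [← h8, mul_div_cancel_left₀ _ (hmin s I (Finset.Subset.refl _) ⟨i0, hi0⟩)]
  exact hrK

/-- **Infinitely many factorisations into normalised short elements**: two of the first factors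
have a ratio in `K`. -/
theorem fac {U : Set G} (hU0 : ∀ x ∈ U, x ≠ 0) (hUm : ∀ x ∈ U, ∀ y ∈ U, x * y ∈ U)
    (hI : Indep K U) (hW : Wts K) {α β : Type} [Fintype α] [Fintype β] (I : ℕ → Finset α)
    (c : ℕ → α → K) (u : ℕ → α → G) (I' : ℕ → Finset β) (c' : ℕ → β → K) (u' : ℕ → β → G)
    (hu : ∀ s i, u s i ∈ U) (hu' : ∀ s i, u' s i ∈ U) (i0 : ℕ → α) (hi0 : ∀ s, i0 s ∈ I s)
    (hi0K : ∀ s, u s (i0 s) ∈ K) (m : G) (hm0 : m ≠ 0)
    (hm : ∀ s, (∑ i ∈ I s, (c s i : G) * u s i) * (∑ i ∈ I' s, (c' s i : G) * u' s i) = m)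
    (hmin : ∀ s, ∀ T ⊆ I s, T.Nonempty → ∑ i ∈ T, (c s i : G) * u s i ≠ 0)
    (hmin' : ∀ s, ∀ T ⊆ I' s, T.Nonempty → ∑ i ∈ T, (c' s i : G) * u' s i ≠ 0) :
    ∃ s t, s ≠ t ∧ (∑ i ∈ I s, (c s i : G) * u s i) / (∑ i ∈ I t, (c t i : G) * u t i) ∈ K := by
  classical
  -- patterns
  let P : ℕ → Finset α × Finset β × α × (α × β → α × β → Prop) × (α × β → α × β → Prop) := fun s =>
    (I s, I' s, i0 s, (fun p q => u s p.1 * u' s p.2 / (u s q.1 * u' s q.2) ∈ K),
      (fun p q => u s p.1 * u' s p.2 / (u 0 q.1 * u' 0 q.2) ∈ K))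
  obtain ⟨y, hy⟩ := Finite.exists_infinite_fiber P
  obtain ⟨⟨t, ht⟩⟩ : Nonempty (P ⁻¹' {y}) := inferInstance
  have hP : ∀ s : P ⁻¹' {y}, P s = P t := fun s => s.2.trans ht.symm
  have hPI : ∀ s : P ⁻¹' {y}, I s = I t := fun s => congrArg (fun x => x.1) (hP s)
  have hPI' : ∀ s : P ⁻¹' {y}, I' s = I' t := fun s => congrArg (fun x => x.2.1) (hP s)
  have hPi : ∀ s : P ⁻¹' {y}, i0 s = i0 t := fun s => congrArg (fun x => x.2.2.1) (hP s)
  have hPR : ∀ s : P ⁻¹' {y}, ∀ p q : α × β,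
      u s p.1 * u' s p.2 / (u s q.1 * u' s q.2) ∈ K →
      u t p.1 * u' t p.2 / (u t q.1 * u' t q.2) ∈ K := by
    intro s p q h
    have h1 := congrFun (congrFun (congrArg (fun x => x.2.2.2.1) (hP s)) p) q
    exact (iff_of_eq h1).1 h
  have hPρ : ∀ s : P ⁻¹' {y}, ∀ p q : α × β,
      u s p.1 * u' s p.2 / (u 0 q.1 * u' 0 q.2) ∈ K →
      u t p.1 * u' t p.2 / (u 0 q.1 * u' 0 q.2) ∈ K := by
    intro s p q h
    have h1 := congrFun (congrFun (congrArg (fun x => x.2.2.2.2) (hP s)) p) q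
    exact (iff_of_eq h1).1 h
  have hm2 : ∀ s, ∑ z ∈ I s ×ˢ I' s, ((c s z.1 * c' s z.2 : K) : G) * (u s z.1 * u' s z.2) = m := by
    intro s
    rw [← hm s, Finset.sum_mul_sum, ← Finset.sum_product']
    refine Finset.sum_congr rfl fun p _ => ?_
    rw [MulMemClass.coe_mul]
    ring
  -- the positions agree
  have h1 : ∀ s : P ⁻¹' {y}, (∀ i ∈ I s, u s i / u t i ∈ K) ∧ ∀ i ∈ I' s, u' s i / u' t i ∈ K := by
    intro s
    refine stage1 hU0 hUm hI hW (I s) (c s) (u s) (u t) (I' s) (c' s) (u' s) (u' t)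
      (I 0 ×ˢ I' 0) (fun z => c 0 z.1 * c' 0 z.2) (fun z => u 0 z.1 * u' 0 z.2) (hu s) (hu' s)
      (hu t) (hu' t) (fun z => hUm _ (hu 0 _) _ (hu' 0 _)) ?_ ?_ ?_ ?_ (hmin s) (hmin' s)
      (i0 s) (hi0 s) ?_
    · rw [hm s, hm2 0]
    · rw [hm2 0]; exact hm0
    · intro i _ j _ k _ l _ h
      exact hPR s (i, j) (k, l) h
    · intro i _ j _ z _ h
      exact hPρ s (i, j) z h
    · have g1 := hi0K s
      have g2 := hi0K t
      rw [← hPi s] at g2
      exact K.div_mem g1 g2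
  -- coefficients with respect to the common positions
  let e : P ⁻¹' {y} → α → K := fun s i =>
    if h : i ∈ I s then c s i * ⟨u s i / u t i, (h1 s).1 i h⟩ else 0
  let e' : P ⁻¹' {y} → β → K := fun s i =>
    if h : i ∈ I' s then c' s i * ⟨u' s i / u' t i, (h1 s).2 i h⟩ else 0
  have he : ∀ s : P ⁻¹' {y}, ∀ i ∈ I s, (e s i : G) * u t i = (c s i : G) * u s i := by
    intro s i hi
    simp only [e]
    rw [dif_pos hi, MulMemClass.coe_mul, mul_assoc]
    congr 1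
    exact div_mul_cancel₀ _ (hU0 _ (hu t i))
  have he' : ∀ s : P ⁻¹' {y}, ∀ i ∈ I' s, (e' s i : G) * u' t i = (c' s i : G) * u' s i := by
    intro s i hi
    simp only [e']
    rw [dif_pos hi, MulMemClass.coe_mul, mul_assoc]
    congr 1
    exact div_mul_cancel₀ _ (hU0 _ (hu' t i))
  obtain ⟨s, s', hss, hK⟩ := stage2 hU0 hUm hI hW (I t) (u t) (I' t) (u' t) (hu t) (hu' t)
    (i0 t) (hi0 t) (hi0K t) e e' m hm0 (by
      intro s
      rw [← hm s, ← hPI s, ← hPI' s]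
      rw [Finset.sum_congr rfl (he s), Finset.sum_congr rfl (he' s)]) (by
      intro s T hT hTn
      rw [← hPI s] at hT
      rw [Finset.sum_congr rfl fun i hi => he s i (hT hi)]
      exact hmin s T hT hTn)
  refine ⟨s, s', fun h => hss (Subtype.ext h), ?_⟩
  rw [hPI s, hPI s']
  rw [Finset.sum_congr rfl fun i hi => he s i (by rw [hPI s]; exact hi),
    Finset.sum_congr rfl fun i hi => he s' i (by rw [hPI s']; exact hi)] at hK
  exact hK

end

end Pool.Agent.Zk30.FU
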