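import Mathlib
import Pool.Agent.TH551.SU.CS
import Pool.Agent.TH551.SU.Sui
import Pool.Agent.TH551.SU.WT
import Pool.Agent.TH539.MQRatio
import Pool.Agent.Zk30.FU.Fac

/-!
# Families of unit groups

A family `𝒢 θ` of multiplicative groups of rational numbers is tame if sequences of elements,
`u_i n ∈ 𝒢 (θ n)`, with ratios of non-negligible height are linearly independent over the field of
the germs of negligible height. Examples: the group of `S`-units (subspace theorem), and the groups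
of the powers of `b`, uniformly in `b ≥ 2`.
-/

set_option autoImplicit false

namespace Pool.Agent.Zk30.FU

open Filter Topology Pool.Agent.TH932.Germs Pool.Agent.TH551.SU Pool.Agent.TH539.MQ

/-- weights exist for germs -/
theorem wts (L : ℕ → ℝ) (hL : Tendsto L atTop atTop) : Wts (KK L hL) := by
  classical
  intro ι _ u hu
  let e := Fintype.equivFin ι
  obtain ⟨l, h1, h2⟩ := Pool.Agent.TH551.SU.WT.wt L hL (Fintype.card ι) (fun j => u (e.symm j))
    (fun j => hu _)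
  have hs : ∀ i : ι, ∏ x, u (e.symm x) ^ ((Pi.single (e i) 1 : Fin (Fintype.card ι) → ℕ) x) =
      u i := by
    intro i
    rw [Finset.prod_eq_single (e i)]
    · simp
    · intro x _ hx
      rw [Pi.single_eq_of_ne hx, pow_zero]
    · intro h; exact absurd (Finset.mem_univ _) h
  have hs2 : ∀ i j : ι, ∏ x, u (e.symm x) ^
      ((Pi.single (e i) 1 + Pi.single (e j) 1 : Fin (Fintype.card ι) → ℕ) x) = u i * u j := by
    intro i j
    simp_rw [Pi.add_apply, pow_add, Finset.prod_mul_distrib]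
    rw [hs, hs]
  have ht : ∀ i : ι, ∑ x, ((Pi.single (e i) 1 : Fin (Fintype.card ι) → ℕ) x) * l x = l (e i) := by
    intro i
    simp [Pi.single_apply]
  have ht2 : ∀ i j : ι, ∑ x, ((Pi.single (e i) 1 + Pi.single (e j) 1 :
      Fin (Fintype.card ι) → ℕ) x) * l x = l (e i) + l (e j) := by
    intro i j
    simp_rw [Pi.add_apply, add_mul, Finset.sum_add_distrib]
    rw [ht, ht]
  have hlin : ∀ i k : ι, u i / u k ∈ KK L hL → l (e i) = l (e k) := by
    intro i k h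
    have := h1 (Pi.single (e i) 1) (Pi.single (e k) 1) (by simp) (by rw [hs, hs]; exact h)
    rwa [ht, ht] at this
  refine ⟨fun i => l (e i), ?_, ?_⟩
  · intro i j k m h
    have := h1 (Pi.single (e i) 1 + Pi.single (e j) 1) (Pi.single (e k) 1 + Pi.single (e m) 1)
      (by simp [Finset.sum_add_distrib]) (by rw [hs2, hs2]; exact h)
    rwa [ht2, ht2] at this
  · intro i j
    constructor
    · exact hlin i j
    · intro h
      have := h2 (e i) (e j) h
      simpa using this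

/-- the germs of sequences of elements of the groups `𝒢 (θ n)` -/
def GU {Θ : Type} (𝒢 : Θ → Set ℚ) (θ : ℕ → Θ) : Set GG :=
  {g | ∃ a : ℕ → ℚ, g = gm a ∧ ∀ n, a n ∈ 𝒢 (θ n)}

/-- tame families of multiplicative groups of rational numbers -/
structure Tame {Θ : Type} (𝒢 : Θ → Set ℚ) : Prop where
  one : ∀ θ, (1 : ℚ) ∈ 𝒢 θ
  ne : ∀ θ, ∀ x ∈ 𝒢 θ, x ≠ 0
  mul : ∀ θ, ∀ x ∈ 𝒢 θ, ∀ y ∈ 𝒢 θ, x * y ∈ 𝒢 θ
  div : ∀ θ, ∀ x ∈ 𝒢 θ, ∀ y ∈ 𝒢 θ, x / y ∈ 𝒢 θ
  ind : ∀ (θ : ℕ → Θ) (L : ℕ → ℝ) (hL : Tendsto L atTop atTop), Indep (KK L hL) (GU 𝒢 θ)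

variable {Θ : Type} {𝒢 : Θ → Set ℚ}

lemma Tame.gu_ne (h : Tame 𝒢) (θ : ℕ → Θ) : ∀ x ∈ GU 𝒢 θ, x ≠ 0 := by
  rintro x ⟨a, rfl, ha⟩
  rw [gm_ne_zero]
  exact Eventually.of_forall fun n => h.ne _ _ (ha n)

lemma Tame.gu_mul (h : Tame 𝒢) (θ : ℕ → Θ) : ∀ x ∈ GU 𝒢 θ, ∀ y ∈ GU 𝒢 θ, x * y ∈ GU 𝒢 θ := by
  rintro x ⟨a, rfl, ha⟩ y ⟨b, rfl, hb⟩
  exact ⟨fun n => a n * b n, gm_mul a b, fun n => h.mul _ _ (ha n) _ (hb n)⟩

/-! ## membership in boxes and negligible germs -/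

/-- the size function for heights `h n` -/
noncomputable def LL (h : ℕ → ℕ) (n : ℕ) : ℝ := Real.log (((n + 1 : ℕ) : ℝ) * (h n : ℝ) ^ (n + 1))

lemma LL_eq (h : ℕ → ℕ) (hh : ∀ n, 1 ≤ h n) (n : ℕ) :
    LL h n = Real.log ((n + 1 : ℕ) : ℝ) + (n + 1 : ℕ) * Real.log (h n) := by
  have hh1 : (1 : ℝ) ≤ h n := by exact_mod_cast hh n
  unfold LL
  rw [Real.log_mul (by positivity) (by positivity), Real.log_pow]

lemma LL_tendsto (h : ℕ → ℕ) (hh : ∀ n, 1 ≤ h n) : Tendsto (LL h) atTop atTop := by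
  have h1 : Tendsto (fun n : ℕ => Real.log ((n + 1 : ℕ) : ℝ)) atTop atTop :=
    (Real.tendsto_log_atTop.comp tendsto_natCast_atTop_atTop).comp (tendsto_add_atTop_nat 1)
  refine tendsto_atTop_mono (fun n => ?_) h1
  rw [LL_eq h hh]
  have h3 : 0 ≤ Real.log (h n) := Real.log_nonneg (by exact_mod_cast hh n)
  have h2 : (0 : ℝ) ≤ ((n + 1 : ℕ) : ℝ) * Real.log (h n) := by positivity
  linarith

lemma exp_LL (h : ℕ → ℕ) (hh : ∀ n, 1 ≤ h n) (n : ℕ) :
    Real.exp (LL h n) = ((n + 1 : ℕ) : ℝ) * (h n : ℝ) ^ (n + 1) := by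
  have hh1 : (1 : ℝ) ≤ h n := by exact_mod_cast hh n
  unfold LL
  exact Real.exp_log (by positivity)

/-- sequences in the boxes of size `h n` are negligible -/
lemma box_KK (h : ℕ → ℕ) (hh : ∀ n, 1 ≤ h n) (a : ℕ → ℚ) (ha : ∀ᶠ n in (UU : Filter ℕ),
    a n ∈ box (h n)) : gm a ∈ KK (LL h) (LL_tendsto h hh) := by
  have hbig : ∀ ε : ℝ, 0 < ε → ∀ᶠ n : ℕ in (UU : Filter ℕ), (h n : ℝ) ≤ Real.exp (ε * LL h n) := by
    intro ε hε
    apply ev_of_atTop
    obtain ⟨N, hN⟩ := exists_nat_gt (1 / ε)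
    filter_upwards [eventually_ge_atTop N] with n hn
    have hh1 : (1 : ℝ) ≤ h n := by exact_mod_cast hh n
    have h1 : (1 : ℝ) ≤ ε * ((n + 1 : ℕ) : ℝ) := by
      have h2 : (1 / ε) < ((n + 1 : ℕ) : ℝ) := by
        refine hN.trans_le ?_
        exact_mod_cast (by omega : N ≤ n + 1)
      rw [div_lt_iff₀ hε] at h2
      linarith
    rw [← Real.log_le_iff_le_exp (by linarith), LL_eq h hh]
    have h3 : 0 ≤ Real.log (h n) := Real.log_nonneg hh1
    have h4 : (0 : ℝ) ≤ Real.log ((n + 1 : ℕ) : ℝ) :=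
      Real.log_nonneg (by push_cast; linarith [(Nat.cast_nonneg n : (0 : ℝ) ≤ n)])
    have h5 : Real.log (h n) ≤ (ε * ((n + 1 : ℕ) : ℝ)) * Real.log (h n) := by nlinarith
    have h6 : 0 ≤ ε * Real.log ((n + 1 : ℕ) : ℝ) := by positivity
    linarith [mul_assoc ε ((n + 1 : ℕ) : ℝ) (Real.log (h n))]
  rw [mem_KK_iff]
  constructor
  · intro ε hε
    filter_upwards [hbig ε hε, ha] with n hn hn2
    exact (box_num hn2).1.trans hn
  · intro ε hε
    filter_upwards [hbig ε hε, ha] with n hn hn2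
    have h1 := (box_num hn2).2.trans hn
    push_cast
    rw [abs_of_nonneg (Nat.cast_nonneg _)]
    exact h1

/-- negligible germs are in boxes -/
lemma KK_box (h : ℕ → ℕ) (hh : ∀ n, 1 ≤ h n) (a : ℕ → ℚ)
    (ha : gm a ∈ KK (LL h) (LL_tendsto h hh)) :
    ∀ᶠ n in (UU : Filter ℕ), a n ∈ box ((n + 1) * (h n) ^ (n + 1)) := by
  rw [mem_KK_iff] at ha
  filter_upwards [ha.1 1 one_pos, ha.2 1 one_pos] with n h1 h2
  rw [one_mul, exp_LL h hh] at h1 h2
  refine mem_box ?_ ?_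
  · push_cast at h1 ⊢
    exact h1
  · push_cast at h2 ⊢
    rwa [abs_of_nonneg (Nat.cast_nonneg _)] at h2

/-! ## the group of `S`-units is tame -/

theorem tame_SU {s : ℕ} (b : Fin s → ℕ) (hb : ∀ v, (b v).Prime) (hbi : Function.Injective b) :
    Tame (fun _ : Unit => {x : ℚ | IsSU b x}) where
  one := fun _ => isSU_one b
  ne := fun _ x hx => isSU_ne b hb hx
  mul := by
    rintro _ x ⟨σ, e, hσ, rfl⟩ y ⟨σ', e', hσ', rfl⟩
    refine ⟨σ * σ', e + e', ?_, ?_⟩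
    · rcases hσ with rfl | rfl <;> rcases hσ' with rfl | rfl <;> simp
    · push_cast
      have : ∏ v, (b v : ℚ) ^ ((e + e') v) = (∏ v, (b v : ℚ) ^ (e v)) * ∏ v, (b v : ℚ) ^ (e' v) := by
        rw [← Finset.prod_mul_distrib]
        refine Finset.prod_congr rfl fun v _ => ?_
        rw [Pi.add_apply, zpow_add₀ (by exact_mod_cast (hb v).ne_zero)]
      rw [this]
      ring
  div := by
    rintro _ x ⟨σ, e, hσ, rfl⟩ y ⟨σ', e', hσ', rfl⟩
    refine ⟨σ * σ', e - e', ?_, ?_⟩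
    · rcases hσ with rfl | rfl <;> rcases hσ' with rfl | rfl <;> simp
    · push_cast
      have : ∏ v, (b v : ℚ) ^ ((e - e') v) = (∏ v, (b v : ℚ) ^ (e v)) / ∏ v, (b v : ℚ) ^ (e' v) := by
        rw [← Finset.prod_div_distrib]
        refine Finset.prod_congr rfl fun v _ => ?_
        rw [Pi.sub_apply, zpow_sub₀ (by exact_mod_cast (hb v).ne_zero)]
      rw [this]
      rcases hσ' with rfl | rfl
      · push_cast; ring
      · push_cast
        rw [neg_one_mul, div_neg]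
        ring
  ind := by
    intro θ L hL m f hf hne c hc
    refine Pool.Agent.TH551.SU.SUI.sui s b hb hbi L hL m f ?_ hne c hc
    intro i
    obtain ⟨a, ha, h2⟩ := hf i
    exact ⟨a, ha, h2⟩

end Pool.Agent.Zk30.FU
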