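import Mathlib
import Pool.Agent.Zk30.FU.Germ

/-!
# Transfer to finite statements
-/

set_option autoImplicit false

namespace Pool.Agent.Zk30.FU

open Filter Topology Pool.Agent.TH932.Germs Pool.Agent.TH551.SU Pool.Agent.TH551.SU.SUI Pool.Agent.TH539.MQ

variable {Θ : Type} {𝒢 : Θ → Set ℚ}

/-- **Clusters in vanishing sums.** -/
theorem cluster (ht : Tame 𝒢) (ι : Type) [Fintype ι] [DecidableEq ι] :
    ∃ C : ℕ, ∀ h : ℕ, 1 ≤ h → ∀ θ : Θ, ∀ (A : Finset ι) (c u : ι → ℚ), (∀ i, c i ∈ box h) →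
      (∀ i, u i ∈ 𝒢 θ) → ∑ i ∈ A, c i * u i = 0 → ∀ I ⊆ A, ∃ J ⊆ A \ I,
        (∀ j ∈ J, ∃ i ∈ I, u j / u i ∈ box (C * h ^ C)) ∧ ∑ i ∈ I ∪ J, c i * u i = 0 := by
  classical
  by_contra hcon
  push Not at hcon
  choose h hh θ A c u hc hu hsum I hI hbad using fun n : ℕ => hcon (n + 1)
  obtain ⟨⟨A0, I0⟩, hconst⟩ := const_of_ev (ι := Finset ι × Finset ι)
    (p := fun q n => A n = q.1 ∧ I n = q.2) (Eventually.of_forall fun n => ⟨(A n, I n), rfl, rfl⟩)
  simp only at hconst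
  set K := KK (LL h) (LL_tendsto h hh) with hK
  have hcK : ∀ i, gm (fun n => c n i) ∈ K := fun i =>
    box_KK h hh _ (Eventually.of_forall fun n => hc n i)
  have huU : ∀ i, gm (fun n => u n i) ∈ GU 𝒢 θ := fun i => ⟨_, rfl, fun n => hu n i⟩
  have hne : ∀ i, gm (fun n => u n i) ≠ 0 := fun i => ht.gu_ne θ _ (huU i)
  set J0 : Finset ι := (A0 \ I0).filter
    (fun j => ∃ i ∈ I0, gm (fun n => u n j) / gm (fun n => u n i) ∈ K) with hJ0
  have hIA : I0 ⊆ A0 := by
    obtain ⟨n, hn⟩ := hconst.exists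
    rw [← hn.1, ← hn.2]
    exact hI n
  have hz : ∑ i ∈ A0, ((⟨gm (fun n => c n i), hcK i⟩ : K) : GG) * gm (fun n => u n i) = 0 := by
    simp only [gm_mul]
    rw [sum_gm, ← gm_zero, gm_eq]
    filter_upwards [hconst] with n hn
    rw [← hsum n, hn.1]
  have hcl := classes (K := K) (ht.gu_ne θ) (ht.ind θ _ _) A0
    (fun i => (⟨gm (fun n => c n i), hcK i⟩ : K)) (fun i => gm (fun n => u n i))
    (fun i => if ∃ i' ∈ I0, gm (fun n => u n i) / gm (fun n => u n i') ∈ K then 1 else 0)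
    (fun i _ => huU i) (by
      intro i _ j _ hij
      have hiff : (∃ i' ∈ I0, gm (fun n => u n i) / gm (fun n => u n i') ∈ K) ↔
          (∃ i' ∈ I0, gm (fun n => u n j) / gm (fun n => u n i') ∈ K) := by
        constructor
        · rintro ⟨i', h1, h2⟩
          refine ⟨i', h1, ?_⟩
          have h3 := K.mul_mem (K.inv_mem hij) h2
          rwa [inv_div, div_mul_div_cancel₀ (hne i)] at h3
        · rintro ⟨i', h1, h2⟩
          refine ⟨i', h1, ?_⟩
          have h3 := K.mul_mem hij h2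
          rwa [div_mul_div_cancel₀ (hne j)] at h3
      simp only [hiff]) hz
  have hco := congrArg (fun p : Polynomial GG => p.coeff 1) hcl
  simp only [Polynomial.finsetSum_coeff, Polynomial.coeff_C_mul, Polynomial.coeff_X_pow,
    Polynomial.coeff_zero] at hco
  have hset : A0.filter (fun i => ∃ i' ∈ I0, gm (fun n => u n i) / gm (fun n => u n i') ∈ K) =
      I0 ∪ J0 := by
    ext i
    rw [Finset.mem_filter, Finset.mem_union, hJ0, Finset.mem_filter, Finset.mem_sdiff]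
    constructor
    · rintro ⟨h1, h2⟩
      by_cases h3 : i ∈ I0
      · exact Or.inl h3
      · exact Or.inr ⟨⟨h1, h3⟩, h2⟩
    · rintro (h1 | ⟨⟨h1, -⟩, h2⟩)
      · refine ⟨hIA h1, i, h1, ?_⟩
        rw [div_self (hne i)]
        exact K.one_mem
      · exact ⟨h1, h2⟩
  have hz2 : ∑ i ∈ I0 ∪ J0, gm (fun n => c n i) * gm (fun n => u n i) = 0 := by
    rw [← hset, Finset.sum_filter]
    refine Eq.trans (Finset.sum_congr rfl fun i _ => ?_) hco
    by_cases h1 : ∃ i' ∈ I0, gm (fun n => u n i) / gm (fun n => u n i') ∈ K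
    · rw [if_pos h1, if_pos h1, if_pos rfl, mul_one]
    · rw [if_neg h1, if_neg h1, if_neg one_ne_zero, mul_zero]
  simp only [gm_mul] at hz2
  rw [sum_gm, ← gm_zero, gm_eq] at hz2
  have hJb : ∀ᶠ n in (UU : Filter ℕ), ∀ j ∈ J0, ∃ i ∈ I0,
      u n j / u n i ∈ box ((n + 1) * (h n) ^ (n + 1)) := by
    rw [Filter.eventually_all_finset]
    intro j hj
    obtain ⟨i, hi, hij⟩ := (Finset.mem_filter.1 hj).2
    rw [gm_div] at hij
    filter_upwards [KK_box h hh _ hij] with n hn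
    exact ⟨i, hi, hn⟩
  obtain ⟨n, h1, h2, h3⟩ := (hconst.and (hz2.and hJb)).exists
  refine hbad n J0 ?_ ?_ ?_
  · rw [h1.1, h1.2]
    exact Finset.filter_subset _ _
  · rw [h1.2]
    exact h3
  · rw [h1.2]
    exact h2

/-- a representation of `x` as a sum of few units with small coefficients, without vanishing
subsums -/
def Rp (W : Set ℚ) (k h : ℕ) (I : Finset (Fin k)) (c u : Fin k → ℚ) (x : ℚ) : Prop :=
  (∀ i, c i ∈ box h ∧ u i ∈ W) ∧ x = ∑ i ∈ I, c i * u i ∧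
    ∀ T ⊆ I, T.Nonempty → ∑ i ∈ T, c i * u i ≠ 0

/-- **Factorisations.** -/
theorem mfac (ht : Tame 𝒢) (k k' : ℕ) :
    ∃ N : ℕ, ∀ h : ℕ, 1 ≤ h → ∀ θ : Θ, ∀ m : ℚ, m ≠ 0 → ∀ x y : Fin (N + 1) → ℚ,
      (∀ s, ∃ I c u, Rp (𝒢 θ) k h I c u (x s) ∧ ∃ i ∈ I, u i ∈ box h) →
      (∀ s, ∃ I c u, Rp (𝒢 θ) k' h I c u (y s)) → (∀ s, x s * y s = m) →
      ∃ s t, s ≠ t ∧ x s / x t ∈ box (N * h ^ N) := by
  classical
  by_contra hcon
  push Not at hcon
  choose h hh θ m hm0 x y hx hy hxy hbad using fun n : ℕ => hcon (n + 1)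
  choose I c u hR i0 hi0 hi0b using hx
  choose I' c' u' hR' using hy
  let ix : ∀ n : ℕ, ℕ → Fin (n + 1 + 1) := fun n s => ⟨min s (n + 1), by omega⟩
  set K := KK (LL h) (LL_tendsto h hh) with hK
  have hI0 : ∀ s, ∃ q : Finset (Fin k) × Fin k × Finset (Fin k'), ∀ᶠ n in (UU : Filter ℕ),
      I n (ix n s) = q.1 ∧ i0 n (ix n s) = q.2.1 ∧ I' n (ix n s) = q.2.2 := fun s =>
    const_of_ev (Eventually.of_forall fun n =>
      ⟨(I n (ix n s), i0 n (ix n s), I' n (ix n s)), rfl, rfl, rfl⟩)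
  choose Q hQ using hI0
  have hcK : ∀ s i, gm (fun n => c n (ix n s) i) ∈ K := fun s i =>
    box_KK h hh _ (Eventually.of_forall fun n => ((hR n (ix n s)).1 i).1)
  have hcK' : ∀ s i, gm (fun n => c' n (ix n s) i) ∈ K := fun s i =>
    box_KK h hh _ (Eventually.of_forall fun n => ((hR' n (ix n s)).1 i).1)
  have huU : ∀ s i, gm (fun n => u n (ix n s) i) ∈ GU 𝒢 θ := fun s i =>
    ⟨_, rfl, fun n => ((hR n (ix n s)).1 i).2⟩
  have huU' : ∀ s i, gm (fun n => u' n (ix n s) i) ∈ GU 𝒢 θ := fun s i =>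
    ⟨_, rfl, fun n => ((hR' n (ix n s)).1 i).2⟩
  have hX : ∀ s, ∑ i ∈ (Q s).1, gm (fun n => c n (ix n s) i) * gm (fun n => u n (ix n s) i) =
      gm (fun n => x n (ix n s)) := by
    intro s
    simp only [gm_mul]
    rw [sum_gm, gm_eq]
    filter_upwards [hQ s] with n hn
    rw [(hR n (ix n s)).2.1, hn.1]
  have hY : ∀ s, ∑ i ∈ (Q s).2.2, gm (fun n => c' n (ix n s) i) *
      gm (fun n => u' n (ix n s) i) = gm (fun n => y n (ix n s)) := by
    intro s
    simp only [gm_mul]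
    rw [sum_gm, gm_eq]
    filter_upwards [hQ s] with n hn
    rw [(hR' n (ix n s)).2.1, hn.2.2]
  obtain ⟨s, t, hst, hK2⟩ := fac (K := K) (ht.gu_ne θ) (ht.gu_mul θ) (ht.ind θ _ _)
    (wts (LL h) (LL_tendsto h hh)) (fun s => (Q s).1)
    (fun s i => ⟨gm (fun n => c n (ix n s) i), hcK s i⟩) (fun s i => gm (fun n => u n (ix n s) i))
    (fun s => (Q s).2.2) (fun s i => ⟨gm (fun n => c' n (ix n s) i), hcK' s i⟩)
    (fun s i => gm (fun n => u' n (ix n s) i)) huU huU' (fun s => (Q s).2.1) (by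
      intro s
      obtain ⟨n, hn⟩ := (hQ s).exists
      rw [← hn.1, ← hn.2.1]
      exact hi0 n (ix n s)) (by
      intro s
      refine box_KK h hh _ ?_
      filter_upwards [hQ s] with n hn
      rw [← hn.2.1]
      exact hi0b n (ix n s)) (gm m) (by
      rw [gm_ne_zero]
      exact Eventually.of_forall hm0) (by
      intro s
      simp only
      rw [hX s, hY s, gm_mul]
      congr 1
      funext n
      exact hxy n (ix n s)) (by
      intro s T hT hTn
      simp only [gm_mul]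
      rw [sum_gm, gm_ne_zero]
      filter_upwards [hQ s] with n hn
      refine (hR n (ix n s)).2.2 T ?_ hTn
      rw [hn.1]
      exact hT) (by
      intro s T hT hTn
      simp only [gm_mul]
      rw [sum_gm, gm_ne_zero]
      filter_upwards [hQ s] with n hn
      refine (hR' n (ix n s)).2.2 T ?_ hTn
      rw [hn.2.2]
      exact hT)
  simp only at hK2
  rw [hX s, hX t, gm_div] at hK2
  obtain ⟨n, h1, h2⟩ := ((KK_box h hh _ hK2).and
    (ev_of_atTop (eventually_ge_atTop (max s t)))).exists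
  refine hbad n (ix n s) (ix n t) ?_ h1
  intro h3
  apply hst
  have h4 := congrArg Fin.val h3
  simp only [ix] at h4
  have h5 : s ≤ n := (le_max_left s t).trans h2
  have h6 : t ≤ n := (le_max_right s t).trans h2
  omega

end Pool.Agent.Zk30.FU
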