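import Mathlib
import Pool.Agent.Zk30.FU.Tr
import Pool.Agent.Zk30.FU.Small

/-!
# Product sets of normalised short numbers
-/

set_option autoImplicit false

namespace Pool.Agent.Zk30.FU

open Pool.Agent.TH539.MQ
open scoped Pointwise

variable {Θ : Type} {𝒢 : Θ → Set ℚ}

/-- normalised short numbers -/
def NS (W : Set ℚ) (k h : ℕ) (x : ℚ) : Prop :=
  ∃ I c u, Rp W k h I c u x ∧ ∃ i ∈ I, u i ∈ box h

/-- short numbers -/
def SS (W : Set ℚ) (k h : ℕ) (x : ℚ) : Prop :=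
  ∃ c u : Fin k → ℚ, (∀ i, c i ∈ box h ∧ u i ∈ W) ∧ x = ∑ i, c i * u i

lemma SS.rp {W : Set ℚ} {k h : ℕ} {x : ℚ} (hx : SS W k h x) : ∃ I c u, Rp W k h I c u x := by
  classical
  obtain ⟨c, u, h1, h2⟩ := hx
  have hex : ∃ m, ∃ I : Finset (Fin k), I.card = m ∧ x = ∑ i ∈ I, c i * u i :=
    ⟨_, Finset.univ, rfl, h2⟩
  obtain ⟨I, hI, hI2⟩ := Nat.find_spec hex
  refine ⟨I, c, u, h1, hI2, ?_⟩
  intro T hT hTn h0
  have h3 : x = ∑ i ∈ I \ T, c i * u i := by
    rw [hI2, ← Finset.sum_sdiff hT, h0, add_zero]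
  have h4 : (I \ T).card < Nat.find hex := by
    rw [← hI]
    refine Finset.card_lt_card ?_
    refine Finset.ssubset_iff_subset_ne.2 ⟨Finset.sdiff_subset, ?_⟩
    intro h5
    obtain ⟨t, ht⟩ := hTn
    have h6 : t ∈ I \ T := by rw [h5]; exact hT ht
    exact (Finset.mem_sdiff.1 h6).2 ht
  exact Nat.find_min hex h4 ⟨I \ T, rfl, h3⟩

lemma Rp.ne {W : Set ℚ} {k h : ℕ} {x : ℚ} {I : Finset (Fin k)} {c u : Fin k → ℚ}
    (hx : Rp W k h I c u x) (hI : I.Nonempty) : x ≠ 0 := by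
  rw [hx.2.1]
  exact hx.2.2 I (Finset.Subset.refl _) hI

lemma NS.ne {W : Set ℚ} {k h : ℕ} {x : ℚ} (hx : NS W k h x) : x ≠ 0 := by
  obtain ⟨I, c, u, h1, i, hi, _⟩ := hx
  exact h1.ne ⟨i, hi⟩

lemma Rp.mono {W : Set ℚ} {k h h' : ℕ} {x : ℚ} {I : Finset (Fin k)} {c u : Fin k → ℚ}
    (hx : Rp W k h I c u x) (hh : h ≤ h') : Rp W k h' I c u x :=
  ⟨fun i => ⟨box_mono hh (hx.1 i).1, (hx.1 i).2⟩, hx.2⟩

lemma NS.mono {W : Set ℚ} {k h h' : ℕ} {x : ℚ} (hx : NS W k h x) (hh : h ≤ h') : NS W k h' x := by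
  obtain ⟨I, c, u, h1, i, hi, h2⟩ := hx
  exact ⟨I, c, u, h1.mono hh, i, hi, box_mono hh h2⟩

lemma SS.mono {W : Set ℚ} {k h h' : ℕ} {x : ℚ} (hx : SS W k h x) (hh : h ≤ h') : SS W k h' x := by
  obtain ⟨c, u, h1, h2⟩ := hx
  exact ⟨c, u, fun i => ⟨box_mono hh (h1 i).1, (h1 i).2⟩, h2⟩

lemma SS.mul (ht : Tame 𝒢) {θ : Θ} {k h k' h' : ℕ} {x y : ℚ} (hx : SS (𝒢 θ) k h x)
    (hy : SS (𝒢 θ) k' h' y) : SS (𝒢 θ) (k * k') (h * h') (x * y) := by
  obtain ⟨c, u, h1, rfl⟩ := hx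
  obtain ⟨c', u', h1', rfl⟩ := hy
  let e : Fin (k * k') ≃ Fin k × Fin k' := finProdFinEquiv.symm
  refine ⟨fun i => c (e i).1 * c' (e i).2, fun i => u (e i).1 * u' (e i).2, fun i =>
    ⟨box_mul (h1 _).1 (h1' _).1, ht.mul _ _ (h1 _).2 _ (h1' _).2⟩, ?_⟩
  rw [Finset.sum_mul_sum, ← Finset.sum_product', Finset.univ_product_univ,
    ← Equiv.sum_comp e]
  refine Finset.sum_congr rfl fun i _ => ?_
  ring

lemma SS.add {W : Set ℚ} {k h k' h' : ℕ} (hh : 1 ≤ h) (hh' : 1 ≤ h') {x y : ℚ} (hx : SS W k h x)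
    (hy : SS W k' h' y) : SS W (k + k') (h * h') (x + y) := by
  obtain ⟨c, u, h1, rfl⟩ := hx
  obtain ⟨c', u', h1', rfl⟩ := hy
  refine ⟨Fin.append c c', Fin.append u u', ?_, ?_⟩
  · intro i
    refine Fin.addCases (fun i => ?_) (fun i => ?_) i
    · rw [Fin.append_left, Fin.append_left]
      exact ⟨box_mono (Nat.le_mul_of_pos_right h hh') (h1 i).1, (h1 i).2⟩
    · rw [Fin.append_right, Fin.append_right]
      exact ⟨box_mono (Nat.le_mul_of_pos_left h' hh) (h1' i).1, (h1' i).2⟩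
  · rw [Fin.sum_univ_add]
    simp [Fin.append_left, Fin.append_right]

lemma SS.neg {W : Set ℚ} {k h : ℕ} {x : ℚ} (hx : SS W k h x) : SS W k h (-x) := by
  obtain ⟨c, u, h1, rfl⟩ := hx
  refine ⟨fun i => - c i, u, fun i => ⟨box_neg (h1 i).1, (h1 i).2⟩, ?_⟩
  simp [Finset.sum_neg_distrib]

lemma SS.one (ht : Tame 𝒢) (θ : Θ) {h : ℕ} (hh : 1 ≤ h) : SS (𝒢 θ) 1 h 1 := by
  refine ⟨fun _ => 1, fun _ => 1, fun _ => ⟨mem_box ?_ ?_, ht.one θ⟩, by simp⟩
  · simpa using (by exact_mod_cast hh : (1 : ℝ) ≤ h)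
  · simpa using (by exact_mod_cast hh : (1 : ℝ) ≤ h)

/-- covering by few balls -/
lemma sep {τ : Type} [DecidableEq τ] (F : Finset τ) (v : τ → ℚ) (N R : ℕ) (hR : 1 ≤ R)
    (hv : ∀ x ∈ F, v x ≠ 0)
    (H : ∀ x : Fin (N + 1) → τ, (∀ s, x s ∈ F) → ∃ s t, s ≠ t ∧ v (x s) / v (x t) ∈ box R) :
    F.card ^ 2 ≤ N * ((F ×ˢ F).filter fun p => v p.1 / v p.2 ∈ box (R * R)).card := by
  classical
  -- a maximal separated subset
  let S : Finset (Finset τ) := F.powerset.filter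
    (fun Z => ∀ z ∈ Z, ∀ z' ∈ Z, z ≠ z' → v z / v z' ∉ box R)
  have hS : S.Nonempty := ⟨∅, by simp [S]⟩
  obtain ⟨Z, hZ, hZmax⟩ := S.exists_max_image Finset.card hS
  rw [Finset.mem_filter, Finset.mem_powerset] at hZ
  have hZN : Z.card ≤ N := by
    by_contra hcon
    push Not at hcon
    have h1 : N + 1 ≤ Z.card := hcon
    let x : Fin (N + 1) → τ := fun i => (Z.equivFin.symm (Fin.castLE h1 i) : Z)
    obtain ⟨s, t, hst, h2⟩ := H x (fun s => hZ.1 (Z.equivFin.symm (Fin.castLE h1 s)).2)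
    refine hZ.2 (x s) (Z.equivFin.symm _).2 (x t) (Z.equivFin.symm _).2 ?_ h2
    intro h3
    apply hst
    have h4 := Z.equivFin.symm.injective (Subtype.ext h3)
    exact Fin.castLE_injective h1 h4
  have hcov : ∀ x ∈ F, ∃ z ∈ Z, v x / v z ∈ box R := by
    intro x hx
    by_contra hcon
    push Not at hcon
    have hone : (1 : ℚ) ∈ box R := by
      refine mem_box ?_ ?_
      · simpa using (by exact_mod_cast hR : (1 : ℝ) ≤ R)
      · simpa using (by exact_mod_cast hR : (1 : ℝ) ≤ R)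
    have hxZ : x ∉ Z := by
      intro h
      refine hcon x h ?_
      rw [div_self (hv x hx)]
      exact hone
    have h1 : insert x Z ∈ S := by
      rw [Finset.mem_filter, Finset.mem_powerset]
      refine ⟨Finset.insert_subset hx hZ.1, ?_⟩
      intro z hz z' hz' hne hb
      rcases Finset.mem_insert.1 hz with h1 | h1
      · rcases Finset.mem_insert.1 hz' with h2 | h2
        · exact hne (h1.trans h2.symm)
        · rw [h1] at hb
          exact hcon z' h2 hb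
      · rcases Finset.mem_insert.1 hz' with h2 | h2
        · refine hcon z h1 ?_
          rw [h2] at hb
          have := inv_mem_box hb (div_ne_zero (hv z (hZ.1 h1)) (hv _ hx))
          rwa [inv_div] at this
        · exact hZ.2 z h1 z' h2 hne hb
    have h2 := hZmax _ h1
    rw [Finset.card_insert_of_notMem hxZ] at h2
    omega
  choose! col hcol hcolb using hcov
  have h1 : F.card = ∑ z ∈ Z, (F.filter fun x => col x = z).card :=
    Finset.card_eq_sum_card_fiberwise hcol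
  have h2 : (∑ z ∈ Z, (F.filter fun x => col x = z).card) ^ 2 ≤
      Z.card * ∑ z ∈ Z, (F.filter fun x => col x = z).card ^ 2 := sq_sum_le_card_mul_sum_sq
  have h3 : ∑ z ∈ Z, (F.filter fun x => col x = z).card ^ 2 ≤
      ((F ×ˢ F).filter fun p => v p.1 / v p.2 ∈ box (R * R)).card := by
    have h4 : ∑ z ∈ Z, (F.filter fun x => col x = z).card ^ 2 =
        (Z.biUnion fun z => (F.filter fun x => col x = z) ×ˢ (F.filter fun x => col x = z)).card := by
      rw [Finset.card_biUnion]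
      · refine Finset.sum_congr rfl fun z _ => ?_
        rw [Finset.card_product, sq]
      · intro z _ z' _ hne
        refine Finset.disjoint_left.2 ?_
        intro p hp hp'
        rw [Finset.mem_product, Finset.mem_filter, Finset.mem_filter] at hp hp'
        exact hne (hp.1.2.symm.trans hp'.1.2)
    rw [h4]
    refine Finset.card_le_card ?_
    intro p hp
    rw [Finset.mem_biUnion] at hp
    obtain ⟨z, hz, hp⟩ := hp
    rw [Finset.mem_product, Finset.mem_filter, Finset.mem_filter] at hp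
    rw [Finset.mem_filter, Finset.mem_product]
    refine ⟨⟨hp.1.1, hp.2.1⟩, ?_⟩
    have g1 := hcolb p.1 hp.1.1
    have g2 := hcolb p.2 hp.2.1
    rw [hp.1.2] at g1
    rw [hp.2.2] at g2
    have hz0 : v z ≠ 0 := hv z (hZ.1 hz)
    have g3 := box_mul g1 (inv_mem_box g2 (div_ne_zero (hv _ hp.2.1) hz0))
    rwa [inv_div, div_mul_div_cancel₀ hz0] at g3
  calc F.card ^ 2 ≤ Z.card * ∑ z ∈ Z, (F.filter fun x => col x = z).card ^ 2 := by
        rw [← h1] at h2; exact h2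
    _ ≤ N * ((F ×ˢ F).filter fun p => v p.1 / v p.2 ∈ box (R * R)).card :=
        Nat.mul_le_mul hZN h3

/-- pairs of pairs with the same product and a ratio in the box -/
noncomputable def QQ (B C : Finset ℚ) (R : ℕ) : Finset ((ℚ × ℚ) × (ℚ × ℚ)) :=
  ((B ×ˢ C) ×ˢ (B ×ˢ C)).filter fun z => z.1.1 * z.1.2 = z.2.1 * z.2.2 ∧ z.1.1 / z.2.1 ∈ box R

lemma QQ_le (B C : Finset ℚ) (R : ℕ) (hB : ∀ x ∈ B, x ≠ 0) :
    (QQ B C R).card ≤ ∑ q ∈ bx R, rr B q * rr C q := by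
  classical
  have hmaps : ∀ z ∈ QQ B C R, z.1.1 / z.2.1 ∈ bx R := by
    intro z hz
    unfold QQ at hz
    rw [Finset.mem_filter, Finset.mem_product, Finset.mem_product, Finset.mem_product] at hz
    exact mem_bx.2 ⟨hz.2.2, div_ne_zero (hB _ hz.1.1.1) (hB _ hz.1.2.1)⟩
  rw [Finset.card_eq_sum_card_fiberwise hmaps]
  refine Finset.sum_le_sum fun q _ => ?_
  unfold rr
  rw [← Finset.card_product]
  refine (Finset.card_le_card (t := ((((B ×ˢ B).filter fun p => p.1 = q * p.2) ×ˢ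
    ((C ×ˢ C).filter fun p => p.1 = q * p.2)).image
      fun w => ((w.1.1, w.2.2), (w.1.2, w.2.1)))) ?_).trans Finset.card_image_le
  intro z hz
  unfold QQ at hz
  rw [Finset.mem_filter, Finset.mem_filter, Finset.mem_product, Finset.mem_product,
    Finset.mem_product] at hz
  obtain ⟨⟨⟨⟨h1, h2⟩, ⟨h3, h4⟩⟩, ⟨h5, h6⟩⟩, h7⟩ := hz
  rw [Finset.mem_image]
  refine ⟨((z.1.1, z.2.1), (z.2.2, z.1.2)), ?_, rfl⟩
  rw [Finset.mem_product, Finset.mem_filter, Finset.mem_filter, Finset.mem_product,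
    Finset.mem_product]
  have h8 : z.1.1 = q * z.2.1 := by rw [← h7, div_mul_cancel₀ _ (hB _ h3)]
  refine ⟨⟨⟨h1, h3⟩, h8⟩, ⟨⟨h4, h2⟩, ?_⟩⟩
  simp only
  rw [h8] at h5
  have h9 : z.2.1 * (q * z.1.2) = z.2.1 * z.2.2 := by rw [← h5]; ring
  exact (mul_left_cancel₀ (hB _ h3) h9).symm

/-- **Product sets of a set of normalised short numbers with a set of short numbers.** -/
theorem prodset (ht : Tame 𝒢) (k k' : ℕ) (ε : ℝ) (hε : 0 < ε) :
    ∃ K : ℝ, 0 < K ∧ ∀ h : ℕ, 1 ≤ h → ∀ θ : Θ, ∀ B C : Finset ℚ,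
      (∀ x ∈ B, NS (𝒢 θ) k h x) → (∀ y ∈ C, SS (𝒢 θ) k' h y ∧ y ≠ 0) →
      (B.card : ℝ) * C.card ≤ K * ((h : ℝ) * B.card * C.card) ^ ε * (B * C).card := by
  classical
  obtain ⟨N, hN⟩ := mfac ht k k'
  set ε' : ℝ := ε / (2 * N + 3) with hε'
  have hε'0 : 0 < ε' := by positivity
  obtain ⟨K1, hK1, hrr⟩ := rr_bound ε' hε'0
  set M : ℝ := (((N + 1 : ℕ) : ℝ) ^ 2) ^ ε' with hM
  have hM0 : 0 < M := by positivity
  refine ⟨(N + 1) * K1 * M, by positivity, fun h hh θ B C hB hC => ?_⟩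
  rcases B.eq_empty_or_nonempty with rfl | hBn
  · simp only [Finset.card_empty, Nat.cast_zero, zero_mul]; positivity
  rcases C.eq_empty_or_nonempty with rfl | hCn
  · simp only [Finset.card_empty, Nat.cast_zero, mul_zero]; positivity
  have hB0 : ∀ x ∈ B, x ≠ 0 := fun x hx => (hB x hx).ne
  have hC0 : ∀ x ∈ C, x ≠ 0 := fun x hx => (hC x hx).2
  have hb1 : (1 : ℝ) ≤ B.card := by exact_mod_cast hBn.card_pos
  have hc1 : (1 : ℝ) ≤ C.card := by exact_mod_cast hCn.card_pos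
  have hh1 : (1 : ℝ) ≤ h := by exact_mod_cast hh
  set X : ℝ := (h : ℝ) * B.card * C.card with hX
  have hX1 : 1 ≤ X := by
    rw [hX]
    calc (1 : ℝ) = 1 * 1 * 1 := by ring
      _ ≤ (h : ℝ) * B.card * C.card := by gcongr
  have hhX : (h : ℝ) ≤ X := by
    rw [hX, mul_assoc]
    nlinarith [mul_le_mul hb1 hc1 zero_le_one (by positivity)]
  have hbX : (B.card : ℝ) ≤ X := by
    rw [hX]
    have : (1 : ℝ) ≤ h * C.card := by nlinarith
    nlinarith
  have hcX : (C.card : ℝ) ≤ X := by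
    rw [hX]
    have : (1 : ℝ) ≤ h * B.card := by nlinarith
    nlinarith
  set R : ℕ := (N + 1) * h ^ (N + 1) with hR
  have hR1 : 1 ≤ R := Nat.mul_pos (by omega) (Nat.pow_pos (by omega))
  have hNR : N * h ^ N ≤ R := Nat.mul_le_mul (by omega) (Nat.pow_le_pow_right hh (by omega))
  -- the fibres
  have hF : ∀ m ∈ B * C, ((B ×ˢ C).filter fun p => p.1 * p.2 = m).card ^ 2 ≤
      N * ((QQ B C (R * R)).filter fun z => z.1.1 * z.1.2 = m).card := by
    intro m hm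
    have hm0 : m ≠ 0 := by
      obtain ⟨x, hx, y, hy, rfl⟩ := Finset.mem_mul.1 hm
      exact mul_ne_zero (hB0 x hx) (hC0 y hy)
    refine (sep ((B ×ˢ C).filter fun p => p.1 * p.2 = m) (fun p => p.1) N R hR1 ?_ ?_).trans ?_
    · intro p hp
      rw [Finset.mem_filter, Finset.mem_product] at hp
      exact hB0 _ hp.1.1
    · intro x hx
      have hx' : ∀ s, ((x s).1 ∈ B ∧ (x s).2 ∈ C) ∧ (x s).1 * (x s).2 = m := by
        intro s
        have := hx s
        rwa [Finset.mem_filter, Finset.mem_product] at this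
      obtain ⟨s, t, hst, h2⟩ := hN h hh θ m hm0 (fun s => (x s).1) (fun s => (x s).2)
        (fun s => hB _ (hx' s).1.1) (fun s => (hC _ (hx' s).1.2).1.rp) (fun s => (hx' s).2)
      exact ⟨s, t, hst, box_mono hNR h2⟩
    · refine Nat.mul_le_mul_left N (Finset.card_le_card ?_)
      intro z hz
      rw [Finset.mem_filter, Finset.mem_product, Finset.mem_filter, Finset.mem_filter] at hz
      rw [Finset.mem_filter, QQ, Finset.mem_filter, Finset.mem_product]
      exact ⟨⟨⟨hz.1.1.1, hz.1.2.1⟩, by rw [hz.1.1.2, hz.1.2.2], hz.2⟩, hz.1.1.2⟩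
  have hsum1 : B.card * C.card = ∑ m ∈ B * C, ((B ×ˢ C).filter fun p => p.1 * p.2 = m).card := by
    rw [← Finset.card_product]
    refine Finset.card_eq_sum_card_fiberwise ?_
    intro p hp
    rw [Finset.mem_coe, Finset.mem_product] at hp
    exact Finset.mul_mem_mul hp.1 hp.2
  have hsum2 : (QQ B C (R * R)).card =
      ∑ m ∈ B * C, ((QQ B C (R * R)).filter fun z => z.1.1 * z.1.2 = m).card := by
    refine Finset.card_eq_sum_card_fiberwise ?_
    intro z hz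
    rw [Finset.mem_coe, QQ, Finset.mem_filter, Finset.mem_product, Finset.mem_product] at hz
    exact Finset.mul_mem_mul hz.1.1.1 hz.1.1.2
  have hcs : (B.card * C.card) ^ 2 ≤ (B * C).card * (N * (QQ B C (R * R)).card) := by
    rw [hsum1, hsum2, Finset.mul_sum]
    exact sq_sum_le_card_mul_sum_sq.trans (Nat.mul_le_mul_left _ (Finset.sum_le_sum hF))
  -- the number of pairs of pairs
  have hbnd : ∀ Y : Finset ℚ, (∀ x ∈ Y, x ≠ 0) → (Y.card : ℝ) ≤ X →
      ∑ q ∈ bx (R * R), (rr Y q : ℝ) ^ 2 ≤ (K1 * M * X ^ ε) * (Y.card : ℝ) ^ 2 := by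
    intro Y hY hYX
    refine (hrr (R * R) (Nat.mul_pos hR1 hR1) Y hY).trans ?_
    refine mul_le_mul_of_nonneg_right ?_ (by positivity)
    rw [mul_assoc K1 M (X ^ ε)]
    refine mul_le_mul_of_nonneg_left ?_ hK1.le
    have h1 : ((R * R : ℕ) : ℝ) * Y.card ≤ ((N + 1 : ℕ) : ℝ) ^ 2 * X ^ (2 * N + 3) := by
      calc ((R * R : ℕ) : ℝ) * Y.card
          = ((N + 1 : ℕ) : ℝ) ^ 2 * ((h : ℝ) ^ (2 * N + 2) * Y.card) := by
            rw [hR]; push_cast; ring
        _ ≤ ((N + 1 : ℕ) : ℝ) ^ 2 * (X ^ (2 * N + 2) * X) := by gcongr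
        _ = _ := by ring
    calc (((R * R : ℕ) : ℝ) * Y.card) ^ ε' ≤ (((N + 1 : ℕ) : ℝ) ^ 2 * X ^ (2 * N + 3)) ^ ε' :=
          Real.rpow_le_rpow (by positivity) h1 hε'0.le
      _ = M * (X ^ (2 * N + 3)) ^ ε' := Real.mul_rpow (by positivity) (by positivity)
      _ = M * X ^ ε := by
          congr 1
          rw [← Real.rpow_natCast X, ← Real.rpow_mul (by positivity)]
          congr 1
          rw [hε']
          push_cast
          field_simp
  have hQ : ((QQ B C (R * R)).card : ℝ) ≤ (K1 * M * X ^ ε) * (B.card * C.card) := by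
    have h1 : ((QQ B C (R * R)).card : ℝ) ≤ ∑ q ∈ bx (R * R), (rr B q : ℝ) * rr C q := by
      exact_mod_cast QQ_le B C (R * R) hB0
    have h2 := Finset.sum_mul_sq_le_sq_mul_sq (bx (R * R)) (fun q => (rr B q : ℝ))
      (fun q => (rr C q : ℝ))
    have h3 := mul_le_mul (hbnd B hB0 hbX) (hbnd C hC0 hcX) (Finset.sum_nonneg fun q _ => by
      positivity) (by positivity)
    have h4 : ((QQ B C (R * R)).card : ℝ) ^ 2 ≤ ((K1 * M * X ^ ε) * (B.card * C.card)) ^ 2 := by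
      calc ((QQ B C (R * R)).card : ℝ) ^ 2 ≤ (∑ q ∈ bx (R * R), (rr B q : ℝ) * rr C q) ^ 2 :=
            pow_le_pow_left₀ (by positivity) h1 2
        _ ≤ _ := h2
        _ ≤ _ := h3
        _ = _ := by ring
    exact le_of_sq_le_sq h4 (by positivity) |> fun h => h
  have hfin : ((B.card : ℝ) * C.card) ^ 2 ≤ (B * C).card * (N * ((K1 * M * X ^ ε) *
      (B.card * C.card))) := by
    calc ((B.card : ℝ) * C.card) ^ 2 ≤ (B * C).card * (N * (QQ B C (R * R)).card) := by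
          exact_mod_cast hcs
      _ ≤ _ := by gcongr
  have hpos : (0 : ℝ) < B.card * C.card := by positivity
  have h5 : ((B.card : ℝ) * C.card) * (B.card * C.card) ≤
      ((B * C).card * (N * (K1 * M * X ^ ε))) * (B.card * C.card) := by
    rw [← sq]
    refine hfin.trans (le_of_eq (by ring))
  have h6 := le_of_mul_le_mul_right h5 hpos
  refine h6.trans ?_
  have hXe : 0 < X ^ ε := by positivity
  have h7 : (N : ℝ) * (K1 * M * X ^ ε) ≤ (N + 1) * K1 * M * X ^ ε := by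
    nlinarith [mul_pos (mul_pos hK1 hM0) hXe]
  calc ((B * C).card : ℝ) * (N * (K1 * M * X ^ ε)) ≤ (B * C).card * ((N + 1) * K1 * M * X ^ ε) := by
        gcongr
    _ = _ := by ring

end Pool.Agent.Zk30.FU
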