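import Mathlib
import Pool.Agent.Zk30.FU.Prod

/-!
# Product sets of normalised short numbers with arbitrary sets
-/

set_option autoImplicit false

namespace Pool.Agent.Zk30.FU

open Pool.Agent.TH539.MQ
open scoped Pointwise

variable {Θ : Type} {𝒢 : Θ → Set ℚ}

lemma NS.ss {W : Set ℚ} {k h : ℕ} (hh : 1 ≤ h) {x : ℚ} (hx : NS W k h x) : SS W k h x := by
  classical
  obtain ⟨I, c, u, ⟨h1, h2, _⟩, _⟩ := hx
  refine ⟨fun i => if i ∈ I then c i else 0, u, fun i => ⟨?_, (h1 i).2⟩, ?_⟩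
  · simp only
    split_ifs
    · exact (h1 i).1
    · exact zero_mem_box hh
  · rw [h2]
    simp only [ite_mul, zero_mul]
    rw [Finset.sum_ite_mem, Finset.univ_inter]

lemma pow_SS (ht : Tame 𝒢) {θ : Θ} {k h : ℕ} (_hh : 1 ≤ h) (B : Finset ℚ)
    (hB : ∀ x ∈ B, SS (𝒢 θ) k h x ∧ x ≠ 0) (j : ℕ) :
    ∀ y ∈ B ^ j, SS (𝒢 θ) (k ^ j) (h ^ j) y ∧ y ≠ 0 := by
  induction j with
  | zero =>
    intro y hy
    rw [pow_zero, Finset.mem_one] at hy
    rw [hy]
    exact ⟨SS.one ht θ (by simp), one_ne_zero⟩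
  | succ j ih =>
    intro y hy
    rw [pow_succ, Finset.mem_mul] at hy
    obtain ⟨a, ha, b, hb, rfl⟩ := hy
    exact ⟨(ih a ha).1.mul ht (hB b hb).1, mul_ne_zero (ih a ha).2 (hB b hb).2⟩

lemma card_pow_le' (B : Finset ℚ) (j : ℕ) : (B ^ j).card ≤ B.card ^ j := by
  induction j with
  | zero => simp
  | succ j ih =>
    rw [pow_succ, pow_succ]
    exact Finset.card_mul_le.trans (Nat.mul_le_mul_right _ ih)

theorem ppow (ht : Tame 𝒢) (k j : ℕ) : ∀ ε : ℝ, 0 < ε →
    ∃ K : ℝ, 0 < K ∧ ∀ h : ℕ, 1 ≤ h → ∀ θ : Θ, ∀ B : Finset ℚ, B.Nonempty →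
      (∀ x ∈ B, NS (𝒢 θ) k h x) →
      (B.card : ℝ) ^ j ≤ K * ((h : ℝ) * B.card) ^ ε * (B ^ j).card := by
  induction j with
  | zero =>
    intro ε hε
    refine ⟨1, one_pos, fun h hh θ B hBn hB => ?_⟩
    have hb1 : (1 : ℝ) ≤ B.card := by exact_mod_cast hBn.card_pos
    have hh1 : (1 : ℝ) ≤ h := by exact_mod_cast hh
    have h1 : (1 : ℝ) ≤ ((h : ℝ) * B.card) ^ ε :=
      Real.one_le_rpow (by nlinarith) hε.le
    simpa using h1
  | succ j ih =>
    intro ε hε
    obtain ⟨K1, hK1, h1⟩ := ih (ε / 2) (by positivity)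
    obtain ⟨K2, hK2, h2⟩ := prodset ht k (k ^ j) (ε / (2 * (j + 1))) (by positivity)
    refine ⟨K1 * K2, by positivity, fun h hh θ B hBn hB => ?_⟩
    have hb1 : (1 : ℝ) ≤ B.card := by exact_mod_cast hBn.card_pos
    have hh1 : (1 : ℝ) ≤ h := by exact_mod_cast hh
    have hX0 : (0 : ℝ) ≤ (h : ℝ) * B.card := by positivity
    have e1 := h1 h hh θ B hBn hB
    have e2 := h2 (h ^ (j + 1)) (Nat.pow_pos (by omega)) θ B (B ^ j)
      (fun x hx => (hB x hx).mono (Nat.le_self_pow (by omega) h))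
      (fun y hy => by
        obtain ⟨g1, g2⟩ := pow_SS ht hh B (fun x hx => ⟨(hB x hx).ss hh, (hB x hx).ne⟩) j y hy
        exact ⟨g1.mono (Nat.pow_le_pow_right hh (by omega)), g2⟩)
    have e3 : (((h ^ (j + 1) : ℕ) : ℝ) * B.card * (B ^ j).card) ^ (ε / (2 * (j + 1))) ≤
        ((h : ℝ) * B.card) ^ (ε / 2) := by
      have g1 : ((h ^ (j + 1) : ℕ) : ℝ) * B.card * (B ^ j).card ≤ ((h : ℝ) * B.card) ^ (j + 1) := by
        have g2 : (((B ^ j).card : ℕ) : ℝ) ≤ (B.card : ℝ) ^ j := by exact_mod_cast card_pow_le' B j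
        calc ((h ^ (j + 1) : ℕ) : ℝ) * B.card * (B ^ j).card
            ≤ ((h ^ (j + 1) : ℕ) : ℝ) * B.card * (B.card : ℝ) ^ j := by gcongr
          _ = _ := by push_cast; ring
      calc (((h ^ (j + 1) : ℕ) : ℝ) * B.card * (B ^ j).card) ^ (ε / (2 * (j + 1)))
          ≤ (((h : ℝ) * B.card) ^ (j + 1)) ^ (ε / (2 * (j + 1))) :=
            Real.rpow_le_rpow (by positivity) g1 (by positivity)
        _ = _ := by
            rw [← Real.rpow_natCast ((h : ℝ) * B.card), ← Real.rpow_mul hX0]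
            congr 1
            push_cast
            field_simp
    have e4 : (B.card : ℝ) * (B ^ j).card ≤ K2 * ((h : ℝ) * B.card) ^ (ε / 2) *
        (B ^ (j + 1)).card := by
      refine e2.trans ?_
      rw [pow_succ' B j]
      gcongr
    calc (B.card : ℝ) ^ (j + 1) = B.card * (B.card : ℝ) ^ j := by ring
      _ ≤ B.card * (K1 * ((h : ℝ) * B.card) ^ (ε / 2) * (B ^ j).card) := by gcongr
      _ = K1 * ((h : ℝ) * B.card) ^ (ε / 2) * (B.card * (B ^ j).card) := by ring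
      _ ≤ K1 * ((h : ℝ) * B.card) ^ (ε / 2) * (K2 * ((h : ℝ) * B.card) ^ (ε / 2) *
        (B ^ (j + 1)).card) := by gcongr
      _ = K1 * K2 * (((h : ℝ) * B.card) ^ (ε / 2) * ((h : ℝ) * B.card) ^ (ε / 2)) *
        (B ^ (j + 1)).card := by ring
      _ = K1 * K2 * ((h : ℝ) * B.card) ^ ε * (B ^ (j + 1)).card := by
          rw [← Real.rpow_add (by positivity)]
          congr 3
          ring

/-- Plünnecke's inequality for finite sets of nonzero rationals -/
lemma plu (B C : Finset ℚ) (hB : ∀ x ∈ B, x ≠ 0) (hC : ∀ x ∈ C, x ≠ 0) (hCn : C.Nonempty) (j : ℕ) :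
    ((B ^ j).card : ℝ) * (C.card : ℝ) ^ j ≤ ((B * C).card : ℝ) ^ j * C.card := by
  classical
  have hlift : ∀ A : Finset ℚ, (∀ x ∈ A, x ≠ 0) → ∃ A' : Finset ℚˣ,
      A'.image (Units.coeHom ℚ) = A := by
    intro A hA
    refine ⟨A.attach.image fun x => Units.mk0 x.1 (hA x.1 x.2), ?_⟩
    ext y
    simp only [Finset.mem_image, Finset.mem_attach, true_and, Subtype.exists]
    constructor
    · rintro ⟨u, ⟨a, ha, rfl⟩, rfl⟩
      simpa using ha
    · intro hy
      exact ⟨Units.mk0 y (hA y hy), ⟨y, hy, rfl⟩, by simp⟩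
  obtain ⟨B', hB'⟩ := hlift B hB
  obtain ⟨C', hC'⟩ := hlift C hC
  have hinj : Function.Injective (Units.coeHom ℚ) := fun a b h => Units.ext h
  have hcard : ∀ A : Finset ℚˣ, (A.image (Units.coeHom ℚ)).card = A.card := fun A =>
    Finset.card_image_of_injective A hinj
  have h1 : (B ^ j).card = (B' ^ j).card := by
    rw [← hcard, Finset.image_pow, hB']
  have h2 : (B * C).card = (C' * B').card := by
    rw [mul_comm, ← hcard, Finset.image_mul, hB', hC']
  have h3 : C.card = C'.card := by rw [← hcard, hC']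
  have hC'n : C'.Nonempty := by
    rw [← Finset.card_pos, ← h3]
    exact hCn.card_pos
  have h4 := Finset.pluennecke_ruzsa_inequality_pow_mul hC'n B' j
  have h5 : ((B' ^ j).card : ℝ) ≤ (((C' * B').card : ℝ) / C'.card) ^ j * C'.card := by
    have h := (NNRat.cast_le (K := ℝ)).2 h4
    push_cast at h
    exact h
  rw [h1, h2, h3]
  have h6 : (0 : ℝ) < C'.card := by exact_mod_cast hC'n.card_pos
  calc ((B' ^ j).card : ℝ) * (C'.card : ℝ) ^ j
      ≤ (((C' * B').card : ℝ) / C'.card) ^ j * C'.card * (C'.card : ℝ) ^ j := by gcongr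
    _ = _ := by
        rw [div_pow]
        field_simp

/-- **Products with arbitrary finite sets.** -/
theorem arb (ht : Tame 𝒢) (k : ℕ) (ε : ℝ) (hε : 0 < ε) :
    ∃ K : ℝ, 0 < K ∧ ∀ h : ℕ, 1 ≤ h → ∀ θ : Θ, ∀ B C : Finset ℚ,
      (∀ x ∈ B, NS (𝒢 θ) k h x) → (∀ y ∈ C, y ≠ 0) →
      (B.card : ℝ) * C.card ≤ K * ((h : ℝ) * B.card * C.card) ^ ε * (B * C).card := by
  obtain ⟨j, hj⟩ := exists_nat_ge ((1 + ε) / ε)
  have hj0 : j ≠ 0 := by
    rintro rfl
    rw [Nat.cast_zero] at hj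
    have : 0 < (1 + ε) / ε := by positivity
    linarith
  obtain ⟨K, hK, h1⟩ := ppow ht k j ε hε
  refine ⟨max 1 K, by positivity, fun h hh θ B C hB hC => ?_⟩
  rcases B.eq_empty_or_nonempty with rfl | hBn
  · simp only [Finset.card_empty, Nat.cast_zero, zero_mul]; positivity
  rcases C.eq_empty_or_nonempty with rfl | hCn
  · simp only [Finset.card_empty, Nat.cast_zero, mul_zero]; positivity
  have hb1 : (1 : ℝ) ≤ B.card := by exact_mod_cast hBn.card_pos
  have hc1 : (1 : ℝ) ≤ C.card := by exact_mod_cast hCn.card_pos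
  have hh1 : (1 : ℝ) ≤ h := by exact_mod_cast hh
  set X : ℝ := (h : ℝ) * B.card * C.card with hX
  have hhb : (1 : ℝ) ≤ (h : ℝ) * B.card := by nlinarith
  have hX1 : 1 ≤ X := by rw [hX]; nlinarith
  have hbX : (h : ℝ) * B.card ≤ X := by rw [hX]; nlinarith
  have hcX : (C.card : ℝ) ≤ X := by rw [hX]; nlinarith
  have h2 := h1 h hh θ B hBn hB
  have h3 := plu B C (fun x hx => (hB x hx).ne) hC hCn j
  have h4 : ((B.card : ℝ) * C.card) ^ j ≤ (max 1 K * X ^ ε * (B * C).card) ^ j := by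
    calc ((B.card : ℝ) * C.card) ^ j = (B.card : ℝ) ^ j * (C.card : ℝ) ^ j := mul_pow _ _ _
      _ ≤ (K * ((h : ℝ) * B.card) ^ ε * (B ^ j).card) * (C.card : ℝ) ^ j := by gcongr
      _ = K * ((h : ℝ) * B.card) ^ ε * ((B ^ j).card * (C.card : ℝ) ^ j) := by ring
      _ ≤ K * ((h : ℝ) * B.card) ^ ε * (((B * C).card : ℝ) ^ j * C.card) := by gcongr
      _ ≤ K * X ^ ε * (((B * C).card : ℝ) ^ j * X) := by gcongr
      _ = K * (X ^ ε * X) * ((B * C).card : ℝ) ^ j := by ring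
      _ ≤ (max 1 K) ^ j * (X ^ ε) ^ j * ((B * C).card : ℝ) ^ j := by
          have g1 : K ≤ (max 1 K) ^ j :=
            (le_max_right 1 K).trans (le_self_pow₀ (le_max_left 1 K) hj0)
          have g2 : X ^ ε * X ≤ (X ^ ε) ^ j := by
            rw [← Real.rpow_natCast (X ^ ε), ← Real.rpow_mul (by positivity)]
            nth_rewrite 2 [← Real.rpow_one X]
            rw [← Real.rpow_add (by positivity)]
            refine Real.rpow_le_rpow_of_exponent_le hX1 ?_
            rw [div_le_iff₀ hε] at hj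
            linarith
          gcongr
      _ = _ := by rw [mul_pow, mul_pow]
  exact (pow_le_pow_iff_left₀ (by positivity) (by positivity) hj0).1 h4

end Pool.Agent.Zk30.FU
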