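import Mathlib
import Pool.Agent.Zk30.FU.Arb

/-!
# Sums of several short numbers
-/

set_option autoImplicit false

namespace Pool.Agent.Zk30.FU

open Pool.Agent.TH539.MQ
open scoped Pointwise

variable {Θ : Type} {𝒢 : Θ → Set ℚ}

/-- the set of the sums of `r` elements of `A` -/
def nSum (r : ℕ) (A : Finset ℚ) : Finset ℚ :=
  (Fintype.piFinset fun _ : Fin r => A).image fun x => ∑ i, x i

open Classical in
/-- tuples without related elements -/
noncomputable def Free {τ : Type} (A : Finset τ) (N : τ → τ → Prop) (j : ℕ) :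
    Finset (Fin j → τ) :=
  (Fintype.piFinset fun _ : Fin j => A).filter fun x => ∀ i i', i ≠ i' → ¬ N (x i) (x i')

open Classical in
lemma free_many {τ : Type} (A : Finset τ) (N : τ → τ → Prop) (r : ℕ)
    (hsym : ∀ a ∈ A, ∀ b ∈ A, N a b → N b a)
    (hN : ∀ a ∈ A, 2 * r * (A.filter fun b => N a b).card ≤ A.card) :
    ∀ j ≤ r, A.card ^ j ≤ 2 ^ j * (Free A N j).card := by
  intro j
  induction j with
  | zero =>
    intro _
    have : (Free A N 0).Nonempty := ⟨fun i => i.elim0, by
      unfold Free
      rw [Finset.mem_filter, Fintype.mem_piFinset]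
      exact ⟨fun i => i.elim0, fun i => i.elim0⟩⟩
    simpa using this.card_pos
  | succ j ih =>
    intro hj
    have h1 := ih (by omega)
    -- extensions of free tuples
    let E : (Fin j → τ) → Finset τ := fun x => A.filter fun b => ∀ i, ¬ N (x i) b
    have hE : ∀ x ∈ Free A N j, A.card ≤ 2 * (E x).card := by
      intro x hx
      unfold Free at hx
      rw [Finset.mem_filter, Fintype.mem_piFinset] at hx
      have h2 : A ⊆ E x ∪ Finset.univ.biUnion fun i : Fin j => A.filter fun b => N (x i) b := by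
        intro b hb
        rw [Finset.mem_union]
        by_cases hc : ∀ i, ¬ N (x i) b
        · exact Or.inl (Finset.mem_filter.2 ⟨hb, hc⟩)
        · right
          push Not at hc
          obtain ⟨i, hi⟩ := hc
          exact Finset.mem_biUnion.2 ⟨i, Finset.mem_univ _, Finset.mem_filter.2 ⟨hb, hi⟩⟩
      have h3 : A.card ≤ (E x).card + ∑ i : Fin j, (A.filter fun b => N (x i) b).card :=
        (Finset.card_le_card h2).trans ((Finset.card_union_le _ _).trans
          (Nat.add_le_add_left Finset.card_biUnion_le _))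
      have h4 : 2 * r * ∑ i : Fin j, (A.filter fun b => N (x i) b).card ≤ j * A.card := by
        rw [Finset.mul_sum]
        calc ∑ i : Fin j, 2 * r * (A.filter fun b => N (x i) b).card ≤ ∑ _i : Fin j, A.card :=
              Finset.sum_le_sum fun i _ => hN _ (hx.1 i)
          _ = j * A.card := by simp
      have hr : 0 < r := by omega
      have h5 : 2 * (∑ i : Fin j, (A.filter fun b => N (x i) b).card) * r ≤ A.card * r := by
        calc 2 * (∑ i : Fin j, (A.filter fun b => N (x i) b).card) * r =
            2 * r * ∑ i : Fin j, (A.filter fun b => N (x i) b).card := by ring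
          _ ≤ j * A.card := h4
          _ ≤ A.card * r := by rw [mul_comm]; exact Nat.mul_le_mul_left _ (by omega)
      have h6 := Nat.le_of_mul_le_mul_right h5 hr
      omega
    have h7 : ((Free A N j).sigma fun x => E x).card ≤ (Free A N (j + 1)).card := by
      refine Finset.card_le_card_of_injOn (fun p => (Fin.snoc p.1 p.2 : Fin (j + 1) → τ)) ?_ ?_
      · intro p hp
        rw [Finset.mem_coe, Finset.mem_sigma] at hp
        obtain ⟨hp1, hp2⟩ := hp
        unfold Free at hp1
        rw [Finset.mem_filter, Fintype.mem_piFinset] at hp1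
        simp only [E] at hp2
        rw [Finset.mem_filter] at hp2
        change (Fin.snoc p.1 p.2 : Fin (j + 1) → τ) ∈ Free A N (j + 1)
        unfold Free
        rw [Finset.mem_filter, Fintype.mem_piFinset]
        constructor
        · intro i
          refine Fin.lastCases ?_ (fun i => ?_) i
          · rw [Fin.snoc_last]; exact hp2.1
          · rw [Fin.snoc_castSucc]; exact hp1.1 i
        · intro i i'
          refine Fin.lastCases ?_ (fun i => ?_) i
          · refine Fin.lastCases ?_ (fun i' => ?_) i'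
            · intro h; exact absurd rfl h
            · intro _ h
              rw [Fin.snoc_last, Fin.snoc_castSucc] at h
              exact hp2.2 i' (hsym _ hp2.1 _ (hp1.1 i') h)
          · refine Fin.lastCases ?_ (fun i' => ?_) i'
            · intro _ h
              rw [Fin.snoc_last, Fin.snoc_castSucc] at h
              exact hp2.2 i h
            · intro hne h
              rw [Fin.snoc_castSucc, Fin.snoc_castSucc] at h
              exact hp1.2 i i' (fun h' => hne (by rw [h'])) h
      · intro p _ q _ h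
        have h' : (Fin.snoc p.1 p.2 : Fin (j + 1) → τ) = Fin.snoc q.1 q.2 := h
        have h8 : p.1 = q.1 := by
          funext i
          have := congrFun h' i.castSucc
          rwa [Fin.snoc_castSucc, Fin.snoc_castSucc] at this
        have h9 : p.2 = q.2 := by
          have := congrFun h' (Fin.last j)
          rwa [Fin.snoc_last, Fin.snoc_last] at this
        exact Sigma.ext h8 (heq_of_eq h9)
    calc A.card ^ (j + 1) = A.card ^ j * A.card := pow_succ _ _
      _ ≤ (2 ^ j * (Free A N j).card) * A.card := Nat.mul_le_mul_right _ h1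
      _ = 2 ^ j * ∑ x ∈ Free A N j, A.card := by
          rw [Finset.sum_const, smul_eq_mul, mul_assoc]
      _ ≤ 2 ^ j * ∑ x ∈ Free A N j, 2 * (E x).card :=
          Nat.mul_le_mul_left _ (Finset.sum_le_sum hE)
      _ = 2 ^ (j + 1) * ((Free A N j).sigma fun x => E x).card := by
          rw [Finset.card_sigma, ← Finset.mul_sum]; ring
      _ ≤ 2 ^ (j + 1) * (Free A N (j + 1)).card := Nat.mul_le_mul_left _ h7

/-- the summands of a free representation are determined up to finitely many choices -/
theorem rep_det (ht : Tame 𝒢) (k r : ℕ) :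
    ∃ C : ℕ, ∀ h : ℕ, 1 ≤ h → ∀ θ : Θ, ∀ (x t : Fin r → ℚ) (I I' : Fin r → Finset (Fin k))
      (c u c' u' : Fin r → Fin k → ℚ), (∀ i, Rp (𝒢 θ) k h (I i) (c i) (u i) (x i)) →
      (∀ i, Rp (𝒢 θ) k h (I' i) (c' i) (u' i) (t i)) → ∑ i, x i = ∑ i, t i →
      (∀ i j, i ≠ j → ∀ a ∈ I i, ∀ b ∈ I j, u i a / u j b ∉ box (C * h ^ C)) →
      ∀ i, ∃ J : Finset (Fin r × Fin k), x i = ∑ p ∈ J, c' p.1 p.2 * u' p.1 p.2 := by
  classical
  obtain ⟨C, hC⟩ := cluster ht ((Fin r × Fin k) ⊕ (Fin r × Fin k))
  refine ⟨C, fun h hh θ x t I I' c u c' u' hx ht' hsum hfree i => ?_⟩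
  let P : Finset (Fin r × Fin k) := Finset.univ.filter fun p => p.2 ∈ I p.1
  let P' : Finset (Fin r × Fin k) := Finset.univ.filter fun p => p.2 ∈ I' p.1
  have hP : ∑ p ∈ P, c p.1 p.2 * u p.1 p.2 = ∑ i, x i := by
    simp only [P]
    rw [Finset.sum_filter, ← Finset.univ_product_univ, Finset.sum_product]
    refine Finset.sum_congr rfl fun i _ => ?_
    rw [(hx i).2.1, ← Finset.sum_filter]
    refine Finset.sum_congr ?_ fun _ _ => rfl
    ext a
    simp
  have hP' : ∑ p ∈ P', c' p.1 p.2 * u' p.1 p.2 = ∑ i, t i := by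
    simp only [P']
    rw [Finset.sum_filter, ← Finset.univ_product_univ, Finset.sum_product]
    refine Finset.sum_congr rfl fun i _ => ?_
    rw [(ht' i).2.1, ← Finset.sum_filter]
    refine Finset.sum_congr ?_ fun _ _ => rfl
    ext a
    simp
  let Q : Finset ((Fin r × Fin k) ⊕ (Fin r × Fin k)) :=
    ((Finset.univ.filter fun p : Fin r × Fin k => p.1 = i ∧ p.2 ∈ I i).disjSum ∅)
  obtain ⟨J, hJ, hJ2, hJ3⟩ := hC h hh θ (P.disjSum P')
    (Sum.elim (fun p => c p.1 p.2) (fun p => - c' p.1 p.2))
    (Sum.elim (fun p => u p.1 p.2) (fun p => u' p.1 p.2)) (by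
      rintro (p | p)
      · exact ((hx p.1).1 p.2).1
      · exact box_neg ((ht' p.1).1 p.2).1) (by
      rintro (p | p)
      · exact ((hx p.1).1 p.2).2
      · exact ((ht' p.1).1 p.2).2) (by
      rw [Finset.sum_disjSum]
      simp only [Sum.elim_inl, Sum.elim_inr, neg_mul, Finset.sum_neg_distrib]
      rw [hP, hP', hsum]; ring) Q (by
      intro z hz
      rcases z with p | p
      · rw [Finset.inl_mem_disjSum, Finset.mem_filter] at hz
        rw [Finset.inl_mem_disjSum, Finset.mem_filter]
        refine ⟨Finset.mem_univ _, ?_⟩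
        rw [hz.2.1]; exact hz.2.2
      · rw [Finset.inr_mem_disjSum] at hz
        exact absurd hz (Finset.notMem_empty _))
  have hJr : ∀ z ∈ J, ∃ p, z = Sum.inr p := by
    rintro (p | p) hz
    · exfalso
      have h1 := hJ hz
      rw [Finset.mem_sdiff, Finset.inl_mem_disjSum, Finset.inl_mem_disjSum, Finset.mem_filter,
        Finset.mem_filter] at h1
      obtain ⟨⟨_, h2⟩, h3⟩ := h1
      have h4 : p.1 ≠ i := by
        intro h
        apply h3
        refine ⟨Finset.mem_univ _, h, ?_⟩
        rw [← h]; exact h2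
      obtain ⟨w, hw, hw2⟩ := hJ2 _ hz
      rcases w with q | q
      · rw [Finset.inl_mem_disjSum, Finset.mem_filter] at hw
        simp only [Sum.elim_inl] at hw2
        obtain ⟨_, h5, h6⟩ := hw
        rw [h5] at hw2
        exact hfree p.1 i h4 p.2 h2 q.2 h6 hw2
      · rw [Finset.inr_mem_disjSum] at hw
        exact Finset.notMem_empty _ hw
    · exact ⟨p, rfl⟩
  let J' : Finset (Fin r × Fin k) := Finset.univ.filter fun p => Sum.inr p ∈ J
  have hJJ' : J = J'.map ⟨Sum.inr, Sum.inr_injective⟩ := by
    ext z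
    rw [Finset.mem_map]
    constructor
    · intro hz
      obtain ⟨p, rfl⟩ := hJr z hz
      exact ⟨p, Finset.mem_filter.2 ⟨Finset.mem_univ _, hz⟩, rfl⟩
    · rintro ⟨p, hp, rfl⟩
      exact (Finset.mem_filter.1 hp).2
  refine ⟨J', ?_⟩
  have hdisj : Disjoint Q J := by
    refine Finset.disjoint_left.2 fun z hz hz' => ?_
    exact (Finset.mem_sdiff.1 (hJ hz')).2 hz
  rw [Finset.sum_union hdisj] at hJ3
  have hQ : ∑ z ∈ Q, Sum.elim (fun p => c p.1 p.2) (fun p => - c' p.1 p.2) z *
      Sum.elim (fun p => u p.1 p.2) (fun p => u' p.1 p.2) z = x i := by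
    simp only [Q]
    rw [Finset.sum_disjSum, Finset.sum_empty, add_zero]
    simp only [Sum.elim_inl]
    rw [(hx i).2.1, Finset.sum_filter, ← Finset.univ_product_univ, Finset.sum_product,
      Finset.sum_eq_single i]
    · rw [← Finset.sum_filter]
      refine Finset.sum_congr ?_ fun _ _ => rfl
      ext a
      simp
    · intro j _ hj
      refine Finset.sum_eq_zero fun a _ => ?_
      rw [if_neg (fun h => hj h.1)]
    · intro h; exact absurd (Finset.mem_univ _) h
  have hJs : ∑ z ∈ J, Sum.elim (fun p => c p.1 p.2) (fun p => - c' p.1 p.2) z *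
      Sum.elim (fun p => u p.1 p.2) (fun p => u' p.1 p.2) z =
      - ∑ p ∈ J', c' p.1 p.2 * u' p.1 p.2 := by
    rw [hJJ', Finset.sum_map, ← Finset.sum_neg_distrib]
    refine Finset.sum_congr rfl fun p _ => ?_
    simp
  rw [hQ, hJs] at hJ3
  linarith

open Classical in
/-- **The additive alternative.** -/
theorem sumside (ht : Tame 𝒢) (k r : ℕ) :
    ∃ C : ℕ, ∀ h : ℕ, 1 ≤ h → ∀ θ : Θ, ∀ A : Finset ℚ, (∀ x ∈ A, SS (𝒢 θ) k h x) →
      A.card ^ r ≤ C * (nSum r A).card ∨
      ∃ B ⊆ A, ∃ π ∈ 𝒢 θ, A.card ≤ C * B.card ∧ ∀ b ∈ B, NS (𝒢 θ) k (C * h ^ C) (b / π) := by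
  obtain ⟨C0, hC0⟩ := rep_det ht k r
  set M : ℕ := Fintype.card (Fin r → Finset (Fin r × Fin k)) with hM
  set C : ℕ := C0 + 2 * r * k + 2 ^ r * M + 1 with hC
  have hC1 : C0 ≤ C := by omega
  have hC2 : 2 * r * k ≤ C := by omega
  have hC3 : 2 ^ r * M ≤ C := by omega
  have hC4 : 1 ≤ C := by omega
  refine ⟨C, fun h hh θ A hA => ?_⟩
  have hR0 : C0 * h ^ C0 ≤ C * h ^ C := Nat.mul_le_mul hC1 (Nat.pow_le_pow_right hh hC1)
  have hh2 : h ≤ C * h ^ C := by
    calc h ≤ h ^ C := Nat.le_self_pow (by omega) h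
      _ ≤ C * h ^ C := Nat.le_mul_of_pos_left _ hC4
  have hrep : ∀ x ∈ A, ∃ I c u, Rp (𝒢 θ) k h I c u x := fun x hx => (hA x hx).rp
  choose! I c u hR using hrep
  obtain ⟨N, hNd⟩ : ∃ N : ℚ → ℚ → Prop, ∀ x y, N x y ↔
      ∃ i ∈ I x, ∃ j ∈ I y, u x i / u y j ∈ box (C0 * h ^ C0) := ⟨_, fun _ _ => Iff.rfl⟩
  have hinv : ∀ x ∈ A, ∀ y ∈ A, ∀ i j, u x i / u y j ∈ box (C0 * h ^ C0) →
      u y j / u x i ∈ box (C0 * h ^ C0) := by
    intro x hx y hy i j hb
    have h1 := inv_mem_box hb (div_ne_zero (ht.ne θ _ ((hR x hx).1 i).2)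
      (ht.ne θ _ ((hR y hy).1 j).2))
    rwa [inv_div] at h1
  have hsym : ∀ a ∈ A, ∀ b ∈ A, N a b → N b a := by
    intro a ha b hb hab
    obtain ⟨i, hi, j, hj, h1⟩ := (hNd a b).1 hab
    exact (hNd b a).2 ⟨j, hj, i, hi, hinv a ha b hb i j h1⟩
  by_cases hcase : ∀ a ∈ A, 2 * r * (A.filter fun b => N a b).card ≤ A.card
  · left
    have h1 := free_many A N r hsym hcase r le_rfl
    have h2 : (Free A N r).card ≤ M * (nSum r A).card := by
      have hfib : ∀ y ∈ (Free A N r).image (fun x => ∑ i, x i),
          ((Free A N r).filter fun x => ∑ i, x i = y).card ≤ M := by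
        intro y hy
        obtain ⟨t, ht', hty⟩ := Finset.mem_image.1 hy
        have hFr : ∀ x ∈ Free A N r, (∀ i, x i ∈ A) ∧ ∀ i i', i ≠ i' → ¬ N (x i) (x i') := by
          intro x hx
          unfold Free at hx
          rw [Finset.mem_filter, Fintype.mem_piFinset] at hx
          exact hx
        have htA := (hFr t ht').1
        have hex : ∀ x ∈ (Free A N r).filter (fun x => ∑ i, x i = y), ∃ J : Fin r →
            Finset (Fin r × Fin k), ∀ i, x i = ∑ p ∈ J i, c (t p.1) p.2 * u (t p.1) p.2 := by
          intro x hx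
          rw [Finset.mem_filter] at hx
          have hxA := (hFr x hx.1).1
          have hxf := (hFr x hx.1).2
          have h3 := hC0 h hh θ x t (fun i => I (x i)) (fun i => I (t i)) (fun i => c (x i))
            (fun i => u (x i)) (fun i => c (t i)) (fun i => u (t i)) (fun i => hR _ (hxA i))
            (fun i => hR _ (htA i)) (hx.2.trans hty.symm) (by
              intro i j hij a ha b hb hbox
              exact hxf i j hij ((hNd _ _).2 ⟨a, ha, b, hb, hbox⟩))
          choose J hJ using h3
          exact ⟨J, hJ⟩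
        choose! J hJ using hex
        rw [hM, ← Finset.card_univ]
        refine Finset.card_le_card_of_injOn J (fun _ _ => Finset.mem_coe.2 (Finset.mem_univ _)) ?_
        intro x hx x' hx' hxx
        funext i
        rw [hJ x hx i, hJ x' hx' i, hxx]
      refine (Finset.card_le_mul_card_image _ M hfib).trans (Nat.mul_le_mul_left _ ?_)
      refine Finset.card_le_card ?_
      unfold nSum Free
      exact Finset.image_subset_image (Finset.filter_subset _ _)
    calc A.card ^ r ≤ 2 ^ r * (Free A N r).card := h1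
      _ ≤ 2 ^ r * (M * (nSum r A).card) := Nat.mul_le_mul_left _ h2
      _ = 2 ^ r * M * (nSum r A).card := by ring
      _ ≤ C * (nSum r A).card := Nat.mul_le_mul_right _ hC3
  · right
    push Not at hcase
    obtain ⟨a, ha, hlt⟩ := hcase
    let S : Fin k → Finset ℚ := fun i =>
      A.filter fun b => ∃ j ∈ I b, u a i / u b j ∈ box (C0 * h ^ C0)
    have hcov : (A.filter fun b => N a b).card ≤ ∑ i ∈ I a, (S i).card := by
      refine (Finset.card_le_card (t := (I a).biUnion S) ?_).trans Finset.card_biUnion_le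
      intro b hb
      rw [Finset.mem_filter] at hb
      obtain ⟨hb1, hb2⟩ := hb
      obtain ⟨i, hi, j, hj, h1⟩ := (hNd a b).1 hb2
      exact Finset.mem_biUnion.2 ⟨i, hi, Finset.mem_filter.2 ⟨hb1, j, hj, h1⟩⟩
    have hexi : ∃ i ∈ I a, A.card ≤ 2 * r * k * (S i).card := by
      by_contra hcon
      push Not at hcon
      have h1 : 2 * r * k * (A.filter fun b => N a b).card ≤ k * A.card := by
        calc 2 * r * k * (A.filter fun b => N a b).card ≤ 2 * r * k * ∑ i ∈ I a, (S i).card :=
              Nat.mul_le_mul_left _ hcov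
          _ = ∑ i ∈ I a, 2 * r * k * (S i).card := by rw [Finset.mul_sum]
          _ ≤ ∑ i ∈ I a, A.card := Finset.sum_le_sum fun i hi => (hcon i hi).le
          _ = (I a).card * A.card := by rw [Finset.sum_const, smul_eq_mul]
          _ ≤ k * A.card := by
              refine Nat.mul_le_mul_right _ ?_
              calc (I a).card ≤ (Finset.univ : Finset (Fin k)).card :=
                    Finset.card_le_card (Finset.subset_univ _)
                _ = k := by simp
      have hk : 0 < k := by
        have h2 : 0 < (A.filter fun b => N a b).card := by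
          rcases Nat.eq_zero_or_pos (A.filter fun b => N a b).card with h0 | h0
          · rw [h0] at hlt; simp at hlt
          · exact h0
        obtain ⟨b, hb⟩ := Finset.card_pos.1 h2
        obtain ⟨i, _, _⟩ := (hNd a b).1 (Finset.mem_filter.1 hb).2
        exact Fin.pos i
      have h3 : k * (2 * r * (A.filter fun b => N a b).card) ≤ k * A.card := by
        calc k * (2 * r * (A.filter fun b => N a b).card) =
            2 * r * k * (A.filter fun b => N a b).card := by ring
          _ ≤ _ := h1
      have h4 := Nat.le_of_mul_le_mul_left h3 hk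
      omega
    obtain ⟨i, hi, hi2⟩ := hexi
    refine ⟨S i, Finset.filter_subset _ _, u a i, ((hR a ha).1 i).2, ?_, ?_⟩
    · exact hi2.trans (Nat.mul_le_mul_right _ hC2)
    · intro b hb
      obtain ⟨hb1, j, hj, h1⟩ := Finset.mem_filter.1 hb
      have hRb := hR b hb1
      refine ⟨I b, c b, fun j => u b j / u a i, ⟨fun j => ⟨box_mono hh2 (hRb.1 j).1,
        ht.div θ _ (hRb.1 j).2 _ ((hR a ha).1 i).2⟩, ?_, ?_⟩, j, hj, ?_⟩
      · conv_lhs => rw [hRb.2.1]
        rw [Finset.sum_div]
        exact Finset.sum_congr rfl fun j _ => by ring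
      · intro T hT hTn
        have h2 := hRb.2.2 T hT hTn
        have h3 : ∑ j ∈ T, c b j * (u b j / u a i) = (∑ j ∈ T, c b j * u b j) / u a i := by
          rw [Finset.sum_div]
          exact Finset.sum_congr rfl fun j _ => by ring
        rw [h3]
        exact div_ne_zero h2 (ht.ne θ _ ((hR a ha).1 i).2)
      · exact box_mono hR0 (hinv a ha b hb1 i j h1)

end Pool.Agent.Zk30.FU
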