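import Mathlib
import Pool.Agent.Zk30.FU.Add

/-!
# The sum-product conjecture for short numbers, for tame families of unit groups
-/

set_option autoImplicit false

namespace Pool.Agent.Zk30.FU

open Pool.Agent.TH539.MQ
open scoped Pointwise

variable {Θ : Type} {𝒢 : Θ → Set ℚ}

theorem main (ht : Tame 𝒢) (k r : ℕ) (ε : ℝ) (hε : 0 < ε) :
    ∃ K : ℝ, 0 < K ∧ ∀ h : ℕ, 1 ≤ h → ∀ θ : Θ, ∀ A : Finset ℚ, (∀ x ∈ A, SS (𝒢 θ) k h x) →
      (A.card : ℝ) ^ r ≤ K * (nSum r A).card ∨
      ∀ C : Finset ℚ, (∀ y ∈ C, y ≠ 0) →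
        (A.card : ℝ) * C.card ≤ K * ((h : ℝ) * A.card * C.card) ^ ε * (A * C).card := by
  classical
  obtain ⟨C1, hC1⟩ := sumside ht k r
  set ε' : ℝ := ε / (C1 + 1) with hε'
  have hε'0 : 0 < ε' := by positivity
  obtain ⟨K1, hK1, h1⟩ := arb ht k ε' hε'0
  set D : ℝ := (C1 : ℝ) + 1 with hD
  have hD1 : 1 ≤ D := by rw [hD]; linarith [Nat.cast_nonneg (α := ℝ) C1]
  refine ⟨D * K1 * D ^ ε' + D, by positivity, fun h hh θ A hA => ?_⟩
  rcases hC1 h hh θ A hA with h2 | ⟨B, hBA, π, hπ, hAB, hB⟩
  · left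
    have h3 : ((A.card : ℝ)) ^ r ≤ C1 * (nSum r A).card := by exact_mod_cast h2
    refine h3.trans (mul_le_mul_of_nonneg_right ?_ (Nat.cast_nonneg _))
    have : 0 < D * K1 * D ^ ε' := by positivity
    rw [hD] at *
    linarith
  · right
    intro C hC
    rcases A.eq_empty_or_nonempty with rfl | hAn
    · simp only [Finset.card_empty, Nat.cast_zero, zero_mul]; positivity
    rcases C.eq_empty_or_nonempty with rfl | hCn
    · simp only [Finset.card_empty, Nat.cast_zero, mul_zero]; positivity
    have ha1 : (1 : ℝ) ≤ A.card := by exact_mod_cast hAn.card_pos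
    have hc1 : (1 : ℝ) ≤ C.card := by exact_mod_cast hCn.card_pos
    have hh1 : (1 : ℝ) ≤ h := by exact_mod_cast hh
    have hπ0 : π ≠ 0 := ht.ne θ π hπ
    have hC1p : 1 ≤ C1 := by
      rcases Nat.eq_zero_or_pos C1 with h0 | h0
      · rw [h0, zero_mul] at hAB
        have := hAn.card_pos
        omega
      · exact h0
    set H : ℕ := C1 * h ^ C1 with hH
    have hH1 : 1 ≤ H := Nat.mul_pos hC1p (Nat.pow_pos (by omega))
    have hinj : Function.Injective (fun b : ℚ => b / π) := by
      intro a b hab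
      exact (div_left_inj' hπ0).1 hab
    have h3 := h1 H hH1 θ (B.image fun b => b / π) C (by
      intro x hx
      obtain ⟨b, hb, rfl⟩ := Finset.mem_image.1 hx
      exact hB b hb) hC
    rw [Finset.card_image_of_injective _ hinj] at h3
    have h4 : ((B.image fun b => b / π) * C).card ≤ (A * C).card := by
      have h5 : (B.image fun b => b / π) * C = (B * C).image fun b => b / π := by
        ext x
        simp only [Finset.mem_mul, Finset.mem_image]
        constructor
        · rintro ⟨_, ⟨b, hb, rfl⟩, c, hc, rfl⟩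
          exact ⟨b * c, ⟨b, hb, c, hc, rfl⟩, by ring⟩
        · rintro ⟨_, ⟨b, hb, c, hc, rfl⟩, rfl⟩
          exact ⟨b / π, ⟨b, hb, rfl⟩, c, hc, by ring⟩
      rw [h5, Finset.card_image_of_injective _ hinj]
      exact Finset.card_le_card (Finset.mul_subset_mul_right hBA)
    have hBA' : (B.card : ℝ) ≤ A.card := by exact_mod_cast Finset.card_le_card hBA
    have hAB' : (A.card : ℝ) ≤ D * B.card := by
      have : (A.card : ℝ) ≤ C1 * B.card := by exact_mod_cast hAB
      refine this.trans (mul_le_mul_of_nonneg_right ?_ (Nat.cast_nonneg _))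
      rw [hD]; linarith
    set X : ℝ := (h : ℝ) * A.card * C.card with hX
    have hX1 : 1 ≤ X := by
      rw [hX]
      have : (1 : ℝ) ≤ h * A.card := by nlinarith
      nlinarith
    have h6 : ((H : ℝ) * B.card * C.card) ^ ε' ≤ D ^ ε' * X ^ ε := by
      have h7 : (H : ℝ) * B.card * C.card ≤ D * X ^ (C1 + 1) := by
        have g1 : (h : ℝ) ^ C1 ≤ X ^ C1 := by
          refine pow_le_pow_left₀ (by positivity) ?_ _
          rw [hX, mul_assoc]
          have : (1 : ℝ) ≤ A.card * C.card := by nlinarith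
          nlinarith
        have g2 : (B.card : ℝ) * C.card ≤ X := by
          rw [hX, mul_assoc]
          calc (B.card : ℝ) * C.card ≤ A.card * C.card := by gcongr
            _ ≤ h * (A.card * C.card) := by
              have : (0 : ℝ) ≤ A.card * C.card := by positivity
              nlinarith
        calc (H : ℝ) * B.card * C.card = C1 * ((h : ℝ) ^ C1 * (B.card * C.card)) := by
              rw [hH]; push_cast; ring
          _ ≤ D * (X ^ C1 * X) := by
              gcongr
              rw [hD]; linarith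
          _ = _ := by ring
      calc ((H : ℝ) * B.card * C.card) ^ ε' ≤ (D * X ^ (C1 + 1)) ^ ε' :=
            Real.rpow_le_rpow (by positivity) h7 hε'0.le
        _ = D ^ ε' * (X ^ (C1 + 1)) ^ ε' := Real.mul_rpow (by positivity) (by positivity)
        _ = D ^ ε' * X ^ ε := by
            congr 1
            rw [← Real.rpow_natCast X, ← Real.rpow_mul (by positivity)]
            congr 1
            rw [hε', hD]
            push_cast
            field_simp
    have hXe : 0 < X ^ ε := by positivity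
    calc (A.card : ℝ) * C.card ≤ D * B.card * C.card := by gcongr
      _ = D * (B.card * C.card) := by ring
      _ ≤ D * (K1 * ((H : ℝ) * B.card * C.card) ^ ε' * ((B.image fun b => b / π) * C).card) := by
          gcongr
      _ ≤ D * (K1 * (D ^ ε' * X ^ ε) * (A * C).card) := by
          gcongr
      _ = (D * K1 * D ^ ε') * X ^ ε * (A * C).card := by ring
      _ ≤ _ := by
          gcongr
          linarith

lemma nSum_two (A : Finset ℚ) : nSum 2 A = A + A := by
  ext x
  unfold nSum
  rw [Finset.mem_image, Finset.mem_add]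
  constructor
  · rintro ⟨f, hf, rfl⟩
    rw [Fintype.mem_piFinset] at hf
    exact ⟨f 0, hf 0, f 1, hf 1, by rw [Fin.sum_univ_two]⟩
  · rintro ⟨a, ha, b, hb, rfl⟩
    refine ⟨![a, b], ?_, by rw [Fin.sum_univ_two]; simp⟩
    rw [Fintype.mem_piFinset]
    intro i
    fin_cases i
    · exact ha
    · exact hb

/-- two-fold sums and products -/
theorem main2 (ht : Tame 𝒢) (k : ℕ) (ε : ℝ) (hε : 0 < ε) :
    ∃ K : ℝ, 0 < K ∧ ∀ h : ℕ, 1 ≤ h → ∀ θ : Θ, ∀ A : Finset ℚ, (∀ x ∈ A, SS (𝒢 θ) k h x) →
      (A.card : ℝ) ^ 2 ≤ K * (A + A).card ∨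
      (A.card : ℝ) ^ 2 ≤ K * ((h : ℝ) * A.card) ^ ε * (A * A).card := by
  classical
  obtain ⟨K, hK, h1⟩ := main ht k 2 (ε / 2) (by positivity)
  refine ⟨2 * K + 1, by positivity, fun h hh θ A hA => ?_⟩
  have hh1 : (1 : ℝ) ≤ h := by exact_mod_cast hh
  rcases Nat.lt_or_ge A.card 2 with hA2 | hA2
  · left
    rcases A.eq_empty_or_nonempty with rfl | hAn
    · simp
    · have h2 : A.card = 1 := by
        have := hAn.card_pos
        omega
      have h3 : 1 ≤ (A + A).card := (hAn.add hAn).card_pos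
      have h4 : (1 : ℝ) ≤ (A + A).card := by exact_mod_cast h3
      rw [h2]
      have h5 : (1 : ℝ) ≤ 2 * K + 1 := by linarith
      calc (((1 : ℕ) : ℝ)) ^ 2 = 1 * 1 := by norm_num
        _ ≤ (2 * K + 1) * (A + A).card := by gcongr
  · rcases h1 h hh θ A hA with h2 | h2
    · left
      rw [nSum_two] at h2
      refine h2.trans (mul_le_mul_of_nonneg_right (by linarith) (Nat.cast_nonneg _))
    · right
      have h3 := h2 (A.erase 0) (fun y hy => (Finset.mem_erase.1 hy).1)
      have hc : (A.card : ℝ) ≤ 2 * (A.erase 0).card := by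
        have : A.card ≤ 2 * (A.erase 0).card := by
          have := Finset.pred_card_le_card_erase (s := A) (a := 0)
          omega
        exact_mod_cast this
      have hc2 : ((A.erase 0).card : ℝ) ≤ A.card := by
        exact_mod_cast Finset.card_le_card (Finset.erase_subset _ _)
      have ha1 : (1 : ℝ) ≤ A.card := by exact_mod_cast (by omega : 1 ≤ A.card)
      have h4 : ((A * A.erase 0).card : ℝ) ≤ (A * A).card := by
        exact_mod_cast Finset.card_le_card (Finset.mul_subset_mul_left (Finset.erase_subset _ _))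
      have h5 : ((h : ℝ) * A.card * (A.erase 0).card) ^ (ε / 2) ≤ ((h : ℝ) * A.card) ^ ε := by
        have g0 : (0 : ℝ) ≤ (h : ℝ) * A.card := by positivity
        calc ((h : ℝ) * A.card * (A.erase 0).card) ^ (ε / 2)
            ≤ (((h : ℝ) * A.card) ^ 2) ^ (ε / 2) := by
              refine Real.rpow_le_rpow (by positivity) ?_ (by positivity)
              calc (h : ℝ) * A.card * (A.erase 0).card ≤ (h : ℝ) * A.card * A.card := by gcongr
                _ ≤ (h : ℝ) * A.card * (h * A.card) := by
                  have : (A.card : ℝ) ≤ h * A.card := by nlinarith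
                  gcongr
                _ = _ := by ring
          _ = _ := by
              rw [← Real.rpow_natCast ((h : ℝ) * A.card), ← Real.rpow_mul g0]
              congr 1
              push_cast
              ring
      calc (A.card : ℝ) ^ 2 = A.card * A.card := sq _
        _ ≤ A.card * (2 * (A.erase 0).card) := by gcongr
        _ = 2 * (A.card * (A.erase 0).card) := by ring
        _ ≤ 2 * (K * ((h : ℝ) * A.card * (A.erase 0).card) ^ (ε / 2) * (A * A.erase 0).card) := by
            gcongr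
        _ ≤ 2 * (K * ((h : ℝ) * A.card) ^ ε * (A * A).card) := by gcongr
        _ = 2 * K * ((h : ℝ) * A.card) ^ ε * (A * A).card := by ring
        _ ≤ _ := by
            gcongr
            linarith

/-- **Affine images of sets of short numbers.** -/
theorem affine (ht : Tame 𝒢) (k : ℕ) (ε : ℝ) (hε : 0 < ε) :
    ∃ K : ℝ, 0 < K ∧ ∀ h : ℕ, 1 ≤ h → ∀ θ : Θ, ∀ l m : ℚ, ∀ A : Finset ℚ,
      (∀ a ∈ A, ∃ x, SS (𝒢 θ) k h x ∧ a = l * x + m) →
      (A.card : ℝ) ^ 2 ≤ K * (A + A).card ∨
      (A.card : ℝ) ^ 2 ≤ K * ((h : ℝ) * A.card) ^ ε * (A * A).card := by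
  classical
  obtain ⟨K, hK, h1⟩ := main2 ht (6 * k ^ 2) (ε / 9) (by positivity)
  refine ⟨K + 2, by positivity, fun h hh θ l m A hA => ?_⟩
  have hh1 : (1 : ℝ) ≤ h := by exact_mod_cast hh
  rcases A.eq_empty_or_nonempty with rfl | hAn
  · left; simp
  have ha1 : (1 : ℝ) ≤ A.card := by exact_mod_cast hAn.card_pos
  have hX1 : (1 : ℝ) ≤ (h : ℝ) * A.card := by nlinarith
  have hXe : (1 : ℝ) ≤ ((h : ℝ) * A.card) ^ ε := Real.one_le_rpow hX1 hε.le
  by_cases hcoin : ∃ a ∈ A, ∃ b ∈ A, ∃ c ∈ A, ∃ d ∈ A, a * b = c * d ∧ ¬ (a = c ∧ b = d) ∧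
      ¬ (a = d ∧ b = c)
  · obtain ⟨a, ha, b, hb, c, hc, d, hd, heq, hn1, hn2⟩ := hcoin
    obtain ⟨x1, hx1, rfl⟩ := hA a ha
    obtain ⟨x2, hx2, rfl⟩ := hA b hb
    obtain ⟨x3, hx3, rfl⟩ := hA c hc
    obtain ⟨x4, hx4, rfl⟩ := hA d hd
    have hl : l ≠ 0 := by
      rintro rfl
      apply hn1
      constructor <;> ring
    have e0 : l * (x1 * x2 - x3 * x4) + m * (x1 + x2 - x3 - x4) = 0 := by
      have : l * (l * (x1 * x2 - x3 * x4) + m * (x1 + x2 - x3 - x4)) = 0 := by
        linear_combination heq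
      exact (mul_eq_zero.1 this).resolve_left hl
    set δ : ℚ := x1 + x2 - x3 - x4 with hδ
    have hδ0 : δ ≠ 0 := by
      intro h0
      rw [h0, mul_zero, add_zero] at e0
      have e1 : x1 * x2 - x3 * x4 = 0 := (mul_eq_zero.1 e0).resolve_left hl
      have e2 : (x1 - x3) * (x1 - x4) = 0 := by
        have : x2 = x3 + x4 - x1 := by linarith
        rw [this] at e1
        linear_combination -e1
      rcases mul_eq_zero.1 e2 with e3 | e3
      · apply hn1
        have e4 : x1 = x3 := by linarith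
        have e5 : x2 = x4 := by linarith
        rw [e4, e5]
        exact ⟨rfl, rfl⟩
      · apply hn2
        have e4 : x1 = x4 := by linarith
        have e5 : x2 = x3 := by linarith
        rw [e4, e5]
        exact ⟨rfl, rfl⟩
    set ν : ℚ := x3 * x4 - x1 * x2 with hν
    have hm : m * δ = l * ν := by rw [hν]; linarith
    -- the set `Z` with `A = (l / δ) Z`
    set Z : Finset ℚ := A.image fun a => δ / l * a with hZ
    have hinj : Function.Injective (fun a : ℚ => δ / l * a) :=
      mul_right_injective₀ (div_ne_zero hδ0 hl)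
    have hZss : ∀ z ∈ Z, SS (𝒢 θ) (6 * k ^ 2) (h ^ 9) z := by
      intro z hz
      obtain ⟨a, ha, rfl⟩ := Finset.mem_image.1 hz
      obtain ⟨x, hx, rfl⟩ := hA a ha
      have e1 : δ / l * (l * x + m) = δ * x + ν := by
        have : m = l * ν / δ := by rw [← hm, mul_div_cancel_right₀ _ hδ0]
        rw [this]
        field_simp
      simp only [e1]
      have s1 : SS (𝒢 θ) (k + k) (h * h) (x1 + x2) := hx1.add hh hh hx2
      have s2 : SS (𝒢 θ) (k + k) (h * h) (-x3 + -x4) := hx3.neg.add hh hh hx4.neg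
      have hh2 : 1 ≤ h * h := Nat.mul_pos hh hh
      have s3 : SS (𝒢 θ) (k + k + (k + k)) (h * h * (h * h)) δ := by
        have := s1.add hh2 hh2 s2
        rwa [show x1 + x2 + (-x3 + -x4) = δ by rw [hδ]; ring] at this
      have s4 := s3.mul ht hx
      have s5 : SS (𝒢 θ) (k * k + k * k) (h * h * (h * h)) ν := by
        have := (hx3.mul ht hx4).add hh2 hh2 (hx1.mul ht hx2).neg
        rwa [show x3 * x4 + -(x1 * x2) = ν by rw [hν]; ring] at this
      have hh4 : 1 ≤ h * h * (h * h) := Nat.mul_pos hh2 hh2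
      have s6 := s4.add (Nat.mul_pos hh4 hh) hh4 s5
      have e2 : (k + k + (k + k)) * k + (k * k + k * k) = 6 * k ^ 2 := by ring
      have e3 : h * h * (h * h) * h * (h * h * (h * h)) = h ^ 9 := by ring
      rwa [e2, e3] at s6
    have hZc : Z.card = A.card := Finset.card_image_of_injective _ hinj
    have hZa : (Z + Z).card = (A + A).card := by
      have : Z + Z = (A + A).image fun a => δ / l * a := by
        ext z
        simp only [hZ, Finset.mem_add, Finset.mem_image]
        constructor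
        · rintro ⟨_, ⟨a, ha, rfl⟩, _, ⟨b, hb, rfl⟩, rfl⟩
          exact ⟨a + b, ⟨a, ha, b, hb, rfl⟩, by ring⟩
        · rintro ⟨_, ⟨a, ha, b, hb, rfl⟩, rfl⟩
          exact ⟨_, ⟨a, ha, rfl⟩, _, ⟨b, hb, rfl⟩, by ring⟩
      rw [this, Finset.card_image_of_injective _ hinj]
    have hZm : (Z * Z).card = (A * A).card := by
      have hinj2 : Function.Injective (fun a : ℚ => (δ / l) ^ 2 * a) :=
        mul_right_injective₀ (pow_ne_zero 2 (div_ne_zero hδ0 hl))
      have : Z * Z = (A * A).image fun a => (δ / l) ^ 2 * a := by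
        ext z
        simp only [hZ, Finset.mem_mul, Finset.mem_image]
        constructor
        · rintro ⟨_, ⟨a, ha, rfl⟩, _, ⟨b, hb, rfl⟩, rfl⟩
          exact ⟨a * b, ⟨a, ha, b, hb, rfl⟩, by ring⟩
        · rintro ⟨_, ⟨a, ha, b, hb, rfl⟩, rfl⟩
          exact ⟨_, ⟨a, ha, rfl⟩, _, ⟨b, hb, rfl⟩, by ring⟩
      rw [this, Finset.card_image_of_injective _ hinj2]
    rcases h1 (h ^ 9) (Nat.pow_pos (by omega)) θ Z hZss with h2 | h2
    · left
      rw [hZc, hZa] at h2
      exact h2.trans (mul_le_mul_of_nonneg_right (by linarith) (Nat.cast_nonneg _))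
    · right
      rw [hZc, hZm] at h2
      have h5 : (((h ^ 9 : ℕ) : ℝ) * A.card) ^ (ε / 9) ≤ ((h : ℝ) * A.card) ^ ε := by
        have g0 : (0 : ℝ) ≤ (h : ℝ) * A.card := by positivity
        calc (((h ^ 9 : ℕ) : ℝ) * A.card) ^ (ε / 9) ≤ (((h : ℝ) * A.card) ^ 9) ^ (ε / 9) := by
              refine Real.rpow_le_rpow (by positivity) ?_ (by positivity)
              rw [mul_pow]
              push_cast
              have : (A.card : ℝ) ≤ (A.card : ℝ) ^ 9 := le_self_pow₀ ha1 (by norm_num)
              gcongr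
          _ = _ := by
              rw [← Real.rpow_natCast ((h : ℝ) * A.card), ← Real.rpow_mul g0]
              congr 1
              push_cast
              ring
      calc (A.card : ℝ) ^ 2 ≤ K * (((h ^ 9 : ℕ) : ℝ) * A.card) ^ (ε / 9) * (A * A).card := h2
        _ ≤ K * ((h : ℝ) * A.card) ^ ε * (A * A).card := by gcongr
        _ ≤ _ := by
            gcongr
            linarith
  · right
    push Not at hcoin
    have h2 : A.card ^ 2 ≤ 2 * (A * A).card := by
      have hm : A * A = (A ×ˢ A).image fun p => p.1 * p.2 := by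
        ext z
        simp only [Finset.mem_mul, Finset.mem_image, Finset.mem_product, Prod.exists]
        constructor
        · rintro ⟨a, ha, b, hb, rfl⟩; exact ⟨a, b, ⟨ha, hb⟩, rfl⟩
        · rintro ⟨a, b, ⟨ha, hb⟩, rfl⟩; exact ⟨a, ha, b, hb, rfl⟩
      rw [hm, sq, ← Finset.card_product]
      refine Finset.card_le_mul_card_image _ 2 ?_
      intro z hz
      obtain ⟨p, hp, rfl⟩ := Finset.mem_image.1 hz
      rw [Finset.mem_product] at hp
      refine (Finset.card_le_card (t := {(p.1, p.2), (p.2, p.1)}) ?_).trans Finset.card_le_two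
      intro q hq
      rw [Finset.mem_filter, Finset.mem_product] at hq
      rw [Finset.mem_insert, Finset.mem_singleton]
      have h3 := hcoin q.1 hq.1.1 q.2 hq.1.2 p.1 hp.1 p.2 hp.2 hq.2
      by_cases h4 : q.1 = p.1 ∧ q.2 = p.2
      · left; exact Prod.ext h4.1 h4.2
      · right
        have h5 : q.1 = p.1 → q.2 ≠ p.2 := fun g1 g2 => h4 ⟨g1, g2⟩
        by_contra h6
        have h7 : q.1 = p.2 ∧ q.2 = p.1 := by
          have := h3 h5
          exact this
        exact h6 (Prod.ext h7.1 h7.2)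
    have h3 : (A.card : ℝ) ^ 2 ≤ 2 * (A * A).card := by exact_mod_cast h2
    refine h3.trans (mul_le_mul_of_nonneg_right ?_ (Nat.cast_nonneg _))
    nlinarith

end Pool.Agent.Zk30.FU
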