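import Mathlib
import Pool.Agent.Zk30.FU.Germ

/-!
# The groups of the powers of a rational number are uniformly tame
-/

set_option autoImplicit false

namespace Pool.Agent.Zk30.FU

open Filter Topology Pool.Agent.TH932.Germs Pool.Agent.TH551.SU Pool.Agent.TH551.SU.SUI
  Pool.Agent.TH539.MQ

/-- the arithmetic input -/
lemma rank1_arith {ι : Type} [DecidableEq ι] (p q : ℕ) (hp : 1 ≤ p) (hpq : p < q)
    (hc : Nat.Coprime p q) (S : Finset ι) (i0 : ι) (hi0 : i0 ∈ S) (d : ι → ℕ) (δ : ℕ)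
    (hd0 : d i0 = 0) (hd : ∀ j ∈ S, j ≠ i0 → δ ≤ d j) (M : ι → ℤ) (hM : M i0 ≠ 0)
    (hsum : ∑ j ∈ S, (M j : ℚ) * ((p : ℚ) / q) ^ (d j) = 0) :
    ((p ^ δ : ℕ) : ℤ) ≤ |M i0| ∧ ((q ^ δ : ℕ) : ℤ) ≤ |M i0| * ∑ j ∈ S.erase i0, |M j| := by
  have hq0 : (q : ℚ) ≠ 0 := by
    have : q ≠ 0 := by omega
    exact_mod_cast this
  have hq0' : (0 : ℚ) < q := by
    have : 0 < q := by omega
    exact_mod_cast this
  have hp0' : (0 : ℚ) < p := by exact_mod_cast hp
  rw [← Finset.add_sum_erase S _ hi0, hd0, pow_zero, mul_one] at hsum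
  have hdiv : ((p ^ δ : ℕ) : ℤ) ∣ M i0 := by
    set D : ℕ := S.sup d with hD
    have hDle : ∀ j ∈ S, d j ≤ D := fun j hj => Finset.le_sup (f := d) hj
    have h1 : M i0 * (q : ℤ) ^ D = - ∑ j ∈ S.erase i0, M j * ((p : ℤ) ^ (d j) * (q : ℤ) ^ (D - d j)) := by
      have h2 : ((M i0 * (q : ℤ) ^ D : ℤ) : ℚ) =
          ((- ∑ j ∈ S.erase i0, M j * ((p : ℤ) ^ (d j) * (q : ℤ) ^ (D - d j)) : ℤ) : ℚ) := by
        push_cast
        have h3 : (M i0 : ℚ) = - ∑ j ∈ S.erase i0, (M j : ℚ) * ((p : ℚ) / q) ^ (d j) := by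
          linarith
        rw [h3, neg_mul, Finset.sum_mul]
        congr 1
        refine Finset.sum_congr rfl fun j hj => ?_
        have h4 : D = d j + (D - d j) := by
          have := hDle j (Finset.mem_of_mem_erase hj)
          omega
        rw [div_pow]
        conv_lhs => rw [h4, pow_add]
        field_simp
      exact_mod_cast h2
    have h5 : ((p ^ δ : ℕ) : ℤ) ∣ M i0 * (q : ℤ) ^ D := by
      rw [h1]
      refine (dvd_neg).2 (Finset.dvd_sum fun j hj => ?_)
      have h6 := hd j (Finset.mem_of_mem_erase hj) (Finset.ne_of_mem_erase hj)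
      push_cast
      exact Dvd.dvd.mul_left (Dvd.dvd.mul_right (pow_dvd_pow _ h6) _) _
    have h7 : IsCoprime ((p ^ δ : ℕ) : ℤ) ((q : ℤ) ^ D) := by
      push_cast
      exact IsCoprime.pow (Nat.isCoprime_iff_coprime.2 hc)
    exact h7.dvd_of_dvd_mul_right h5
  have hple : ((p ^ δ : ℕ) : ℤ) ≤ |M i0| := Int.le_of_dvd (abs_pos.2 hM) ((dvd_abs _ _).2 hdiv)
  refine ⟨hple, ?_⟩
  set T : ℤ := ∑ j ∈ S.erase i0, |M j| with hT
  -- the archimedean estimate
  have h8 : (1 : ℚ) ≤ (T : ℚ) * ((p : ℚ) / q) ^ δ := by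
    have h9 : (1 : ℚ) ≤ |(M i0 : ℚ)| := by
      exact_mod_cast Int.one_le_abs hM
    have h10 : (M i0 : ℚ) = - ∑ j ∈ S.erase i0, (M j : ℚ) * ((p : ℚ) / q) ^ (d j) := by linarith
    refine h9.trans ?_
    rw [h10, abs_neg, hT]
    push_cast
    rw [Finset.sum_mul]
    refine (Finset.abs_sum_le_sum_abs _ _).trans (Finset.sum_le_sum fun j hj => ?_)
    rw [abs_mul]
    refine mul_le_mul_of_nonneg_left ?_ (abs_nonneg _)
    rw [abs_of_nonneg (by positivity)]
    refine pow_le_pow_of_le_one (by positivity) ?_ (hd j (Finset.mem_of_mem_erase hj)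
      (Finset.ne_of_mem_erase hj))
    rw [div_le_one hq0']
    exact_mod_cast hpq.le
  have h11 : ((q ^ δ : ℕ) : ℚ) ≤ (T : ℚ) * ((p ^ δ : ℕ) : ℚ) := by
    push_cast
    rw [div_pow] at h8
    have h12 : (0 : ℚ) < (q : ℚ) ^ δ := by positivity
    calc (q : ℚ) ^ δ = 1 * (q : ℚ) ^ δ := (one_mul _).symm
      _ ≤ ((T : ℚ) * ((p : ℚ) ^ δ / (q : ℚ) ^ δ)) * (q : ℚ) ^ δ := by gcongr
      _ = _ := by field_simp
  have h13 : ((q ^ δ : ℕ) : ℤ) ≤ T * ((p ^ δ : ℕ) : ℤ) := by exact_mod_cast h11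
  have hT0 : 0 ≤ T := Finset.sum_nonneg fun j _ => abs_nonneg _
  calc ((q ^ δ : ℕ) : ℤ) ≤ T * ((p ^ δ : ℕ) : ℤ) := h13
    _ ≤ T * |M i0| := mul_le_mul_of_nonneg_left hple hT0
    _ = _ := mul_comm _ _

/-- independence from the case of nonzero coefficients -/
lemma indep_of {G : Type} [Field G] (K : Subfield G) (U : Set G)
    (H : ∀ (m : ℕ) (f : Fin (m + 1) → G), (∀ i, f i ∈ U) → (∀ i j, i ≠ j → f i / f j ∉ K) →
      ∀ c : Fin (m + 1) → K, (∀ i, c i ≠ 0) → ∑ i, (c i : G) * f i ≠ 0) : Indep K U := by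
  classical
  intro m f hf hne c hsum
  by_contra hcon
  push Not at hcon
  set S : Finset (Fin m) := Finset.univ.filter fun i => c i ≠ 0 with hS
  have hSn : S.Nonempty := by
    obtain ⟨i, hi⟩ := hcon
    exact ⟨i, Finset.mem_filter.2 ⟨Finset.mem_univ _, hi⟩⟩
  obtain ⟨t, ht⟩ : ∃ t, S.card = t + 1 := ⟨S.card - 1, by have := hSn.card_pos; omega⟩
  let e : Fin (t + 1) ≃ S := (Finset.equivFinOfCardEq ht).symm
  refine H t (fun i => f (e i)) (fun i => hf _) (fun i j hij => hne _ _ ?_) (fun i => c (e i))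
    (fun i => (Finset.mem_filter.1 (e i).2).2) ?_
  · intro h
    exact hij (e.injective (Subtype.ext h))
  · rw [Equiv.sum_comp e (fun i : S => (c i : G) * f i),
      Finset.sum_coe_sort S (fun i => (c i : G) * f i), ← hsum, hS, Finset.sum_filter]
    refine Finset.sum_congr rfl fun i _ => ?_
    by_cases h : c i = 0
    · rw [if_neg (by simpa using h), h]; simp
    · rw [if_pos h]

/-- **The groups of the powers of a rational number `b > 1`.** -/
theorem tame_pow : Tame (fun b : {b : ℚ // 1 < b} => {x : ℚ | ∃ e : ℤ, x = b.1 ^ e}) where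
  one := fun b => ⟨0, by simp⟩
  ne := by
    rintro b x ⟨e, rfl⟩
    exact zpow_ne_zero _ (by linarith [b.2] : (0 : ℚ) < b.1).ne'
  mul := by
    rintro b x ⟨e, rfl⟩ y ⟨e', rfl⟩
    exact ⟨e + e', by rw [zpow_add₀ (by linarith [b.2] : (0 : ℚ) < b.1).ne']⟩
  div := by
    rintro b x ⟨e, rfl⟩ y ⟨e', rfl⟩
    exact ⟨e - e', by rw [zpow_sub₀ (by linarith [b.2] : (0 : ℚ) < b.1).ne']⟩
  ind := by
    intro θ L hL
    refine indep_of _ _ ?_
    intro m f hf hne c hc hsum
    choose a ha e he using hf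
    have hf' : f = fun i => gm (a i) := funext ha
    subst hf'
    obtain ⟨C, _, hC, _, _, hC0, hCs⟩ := clear hL c hc a hsum
    -- numerator and denominator of the base
    have hb0 : ∀ n, (0 : ℚ) < (θ n).1 := fun n => by linarith [(θ n).2]
    let q : ℕ → ℕ := fun n => (θ n).1.num.natAbs
    let p : ℕ → ℕ := fun n => (θ n).1.den
    have hp1 : ∀ n, 1 ≤ p n := fun n => (θ n).1.den_pos
    have hqz : ∀ n, ((q n : ℕ) : ℤ) = (θ n).1.num := fun n => by
      have := Rat.num_pos.2 (hb0 n)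
      simp only [q]
      omega
    have hbq : ∀ n, (θ n).1 = (q n : ℚ) / p n := by
      intro n
      rw [← Int.cast_natCast (q n), hqz n]
      exact (Rat.num_div_den _).symm
    have hpq : ∀ n, p n < q n := by
      intro n
      have h1 := (θ n).2
      rw [hbq n, lt_div_iff₀ (by exact_mod_cast hp1 n), one_mul] at h1
      exact_mod_cast h1
    have hcop : ∀ n, Nat.Coprime (p n) (q n) := fun n => ((θ n).1.reduced).symm
    -- the largest exponent
    have hmax0 : ∀ᶠ n in (UU : Filter ℕ), ∃ i : Fin (m + 1), ∀ j, e j n ≤ e i n :=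
      Eventually.of_forall fun n => by
        obtain ⟨i, _, hi⟩ := Finset.exists_max_image (Finset.univ : Finset (Fin (m + 1)))
          (fun j => e j n) Finset.univ_nonempty
        exact ⟨i, fun j => hi j (Finset.mem_univ j)⟩
    obtain ⟨i0, hi0⟩ := const_of_ev hmax0
    have hrel : ∀ᶠ n in (UU : Filter ℕ), ∑ j, (C j n : ℚ) *
        ((p n : ℚ) / q n) ^ (e i0 n - e j n).toNat = 0 := by
      filter_upwards [hi0, hCs] with n h1 h2
      have hbn := (hb0 n).ne'
      have h3 : ∀ j, ((p n : ℚ) / q n) ^ (e i0 n - e j n).toNat =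
          a j n / (θ n).1 ^ (e i0 n) := by
        intro j
        rw [he j n, ← zpow_sub₀ hbn, ← zpow_natCast, Int.toNat_of_nonneg (by linarith [h1 j])]
        have h4 : (p n : ℚ) / q n = ((θ n).1)⁻¹ := by rw [hbq n, inv_div]
        rw [h4, inv_zpow, ← zpow_neg]
        congr 1
        ring
      calc ∑ j, (C j n : ℚ) * ((p n : ℚ) / q n) ^ (e i0 n - e j n).toNat =
          (∑ j, (C j n : ℚ) * a j n) / (θ n).1 ^ (e i0 n) := by
            rw [Finset.sum_div]
            exact Finset.sum_congr rfl fun j _ => by rw [h3 j]; ring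
        _ = 0 := by rw [h2, zero_div]
    rcases Nat.eq_zero_or_pos m with rfl | hm
    · obtain ⟨n, h1, h2⟩ := (hrel.and hC0).exists
      rw [Fin.sum_univ_one] at h1
      have h3 : i0 = 0 := by
        have := i0.2
        exact Fin.ext (by simp)
      rw [h3, sub_self, Int.toNat_zero, pow_zero, mul_one] at h1
      exact h2 0 (by exact_mod_cast h1)
    -- the second largest exponent
    have hne0 : ∃ i : Fin (m + 1), i ≠ i0 := by
      by_cases h : i0 = 0
      · exact ⟨Fin.last m, by rw [h]; intro h'; have := congrArg Fin.val h'; simp at this; omega⟩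
      · exact ⟨0, fun h' => h h'.symm⟩
    have hmax1 : ∀ᶠ n in (UU : Filter ℕ), ∃ i : Fin (m + 1), i ≠ i0 ∧
        ∀ j, j ≠ i0 → e j n ≤ e i n := Eventually.of_forall fun n => by
      obtain ⟨i, hi1, hi⟩ := Finset.exists_max_image
        ((Finset.univ : Finset (Fin (m + 1))).erase i0) (fun j => e j n) (by
          obtain ⟨i, hi⟩ := hne0
          exact ⟨i, Finset.mem_erase.2 ⟨hi, Finset.mem_univ _⟩⟩)
      exact ⟨i, (Finset.mem_erase.1 hi1).1, fun j hj =>
        hi j (Finset.mem_erase.2 ⟨hj, Finset.mem_univ j⟩)⟩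
    obtain ⟨i1, hi1⟩ := const_of_ev hmax1
    have hi10 : i1 ≠ i0 := by
      obtain ⟨n, hn⟩ := hi1.exists
      exact hn.1
    refine hne i0 i1 hi10.symm ?_
    -- the bounds
    have hbd : ∀ᶠ n in (UU : Filter ℕ),
        (((p n) ^ (e i0 n - e i1 n).toNat : ℕ) : ℤ) ≤ |C i0 n| ∧
        (((q n) ^ (e i0 n - e i1 n).toNat : ℕ) : ℤ) ≤
          |C i0 n| * ∑ j ∈ Finset.univ.erase i0, |C j n| := by
      filter_upwards [hrel, hi0, hi1, hC0] with n h1 h2 h3 h4
      exact rank1_arith (p n) (q n) (hp1 n) (hpq n) (hcop n) Finset.univ i0 (Finset.mem_univ _)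
        (fun j => (e i0 n - e j n).toNat) (e i0 n - e i1 n).toNat (by simp) (by
          intro j _ hj
          have := h3.2 j hj
          have := h2 j
          omega) (fun j => C j n) (h4 i0) h1
    have hneg : ∀ ε : ℝ, 0 < ε → ∀ᶠ n in (UU : Filter ℕ),
        ((|C i0 n| * ∑ j ∈ Finset.univ.erase i0, |C j n| : ℤ) : ℝ) ≤ Real.exp (ε * L n) ∧
        ((|C i0 n| : ℤ) : ℝ) ≤ Real.exp (ε * L n) := by
      intro ε hε
      have h1 : ∀ᶠ n in (UU : Filter ℕ), ∀ j, |(C j n : ℝ)| ≤ Real.exp (ε / 3 * L n) :=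
        eventually_all.2 fun j => hC j (ε / 3) (by positivity)
      have h2 : ∀ᶠ n in (UU : Filter ℕ), ((m : ℝ) + 1) ≤ Real.exp (ε / 3 * L n) := by
        apply ev_of_atTop
        filter_upwards [hL.eventually_ge_atTop (3 * ((m : ℝ) + 1) / ε)] with n hn
        rw [div_le_iff₀ hε] at hn
        have h3 : (m : ℝ) + 1 ≤ ε / 3 * L n := by linarith
        linarith [Real.add_one_le_exp (ε / 3 * L n)]
      filter_upwards [h1, h2, L_nonneg hL] with n h1 h2 h0
      have hE : Real.exp (ε * L n) =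
          Real.exp (ε / 3 * L n) * (Real.exp (ε / 3 * L n) * Real.exp (ε / 3 * L n)) := by
        rw [← Real.exp_add, ← Real.exp_add]
        congr 1
        ring
      have hE1 : 1 ≤ Real.exp (ε / 3 * L n) := Real.one_le_exp (by positivity)
      constructor
      · push_cast
        have h5 : ∑ j ∈ Finset.univ.erase i0, |(C j n : ℝ)| ≤
            Real.exp (ε / 3 * L n) * Real.exp (ε / 3 * L n) := by
          calc ∑ j ∈ Finset.univ.erase i0, |(C j n : ℝ)|
              ≤ ∑ _j ∈ Finset.univ.erase i0, Real.exp (ε / 3 * L n) :=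
                Finset.sum_le_sum fun j _ => h1 j
            _ = ((Finset.univ.erase i0).card : ℝ) * Real.exp (ε / 3 * L n) := by
                rw [Finset.sum_const, nsmul_eq_mul]
            _ ≤ ((m : ℝ) + 1) * Real.exp (ε / 3 * L n) := by
                gcongr
                have h6 : (Finset.univ.erase i0).card ≤ m + 1 :=
                  (Finset.card_le_card (Finset.erase_subset _ _)).trans (by simp)
                exact_mod_cast h6
            _ ≤ _ := by gcongr
        rw [hE]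
        exact mul_le_mul (h1 i0) h5 (Finset.sum_nonneg fun _ _ => abs_nonneg _) (by positivity)
      · push_cast
        refine (h1 i0).trans ?_
        rw [hE]
        nlinarith
    refine ⟨fun n => (((q n) ^ (e i0 n - e i1 n).toNat : ℕ) : ℤ),
      fun n => (((p n) ^ (e i0 n - e i1 n).toNat : ℕ) : ℤ), ?_, ?_, ?_, ?_⟩
    · intro ε hε
      filter_upwards [hbd, hneg ε hε] with n h1 h2
      rw [abs_of_nonneg (by positivity)]
      refine le_trans ?_ h2.1
      exact_mod_cast h1.2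
    · intro ε hε
      filter_upwards [hbd, hneg ε hε] with n h1 h2
      rw [abs_of_nonneg (by positivity)]
      refine le_trans ?_ h2.2
      exact_mod_cast h1.1
    · refine Eventually.of_forall fun n => ?_
      have := Nat.pow_pos (n := (e i0 n - e i1 n).toNat) (hp1 n)
      change (((p n) ^ (e i0 n - e i1 n).toNat : ℕ) : ℤ) ≠ 0
      exact_mod_cast this.ne'
    · rw [gm_div, gm_eq]
      filter_upwards [hi0] with n h1
      rw [he i0 n, he i1 n, ← zpow_sub₀ (hb0 n).ne']
      push_cast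
      rw [← div_pow, ← hbq n, ← zpow_natCast, Int.toNat_of_nonneg (by linarith [h1 i1])]

end Pool.Agent.Zk30.FU
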