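import Mathlib
import Pool.Agent.Zk30.FU.Main
import Pool.Agent.Zk30.FU.Rank1

/-!
# Final forms, for tame families of unit groups
-/

set_option autoImplicit false

namespace Pool.Agent.Zk30.FU

open Pool.Agent.TH539.MQ
open scoped Pointwise

variable {Θ : Type} {𝒢 : Θ → Set ℚ}

/-- the set of the products of `r` elements of `A` -/
def nProd (r : ℕ) (A : Finset ℚ) : Finset ℚ :=
  (Fintype.piFinset fun _ : Fin r => A).image fun x => ∏ i, x i

lemma nSum_image (r : ℕ) (A : Finset ℚ) (l : ℚ) :
    nSum r (A.image fun a => l * a) = (nSum r A).image fun a => l * a := by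
  ext x
  simp only [nSum, Finset.mem_image, Fintype.mem_piFinset]
  constructor
  · rintro ⟨f, hf, rfl⟩
    choose g hg hg2 using hf
    exact ⟨_, ⟨g, hg, rfl⟩, by rw [Finset.mul_sum]; exact Finset.sum_congr rfl fun i _ => hg2 i⟩
  · rintro ⟨_, ⟨g, hg, rfl⟩, rfl⟩
    exact ⟨fun i => l * g i, fun i => ⟨g i, hg i, rfl⟩, by rw [Finset.mul_sum]⟩

lemma nProd_image (r : ℕ) (A : Finset ℚ) (l : ℚ) :
    nProd r (A.image fun a => l * a) = (nProd r A).image fun a => l ^ r * a := by
  ext x
  simp only [nProd, Finset.mem_image, Fintype.mem_piFinset]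
  constructor
  · rintro ⟨f, hf, rfl⟩
    choose g hg hg2 using hf
    refine ⟨_, ⟨g, hg, rfl⟩, ?_⟩
    rw [← Finset.prod_congr rfl fun i _ => hg2 i, Finset.prod_mul_distrib]
    simp
  · rintro ⟨_, ⟨g, hg, rfl⟩, rfl⟩
    refine ⟨fun i => l * g i, fun i => ⟨g i, hg i, rfl⟩, ?_⟩
    rw [Finset.prod_mul_distrib]
    simp

lemma nSum_nonempty (r : ℕ) {A : Finset ℚ} (hA : A.Nonempty) : (nSum r A).Nonempty := by
  obtain ⟨a, ha⟩ := hA
  exact ⟨∑ _i : Fin r, a, Finset.mem_image.2 ⟨fun _ => a, Fintype.mem_piFinset.2 fun _ => ha, rfl⟩⟩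

lemma pow_subset_nProd (r : ℕ) (A B : Finset ℚ) (h : B ⊆ A) : B ^ r ⊆ nProd r A := by
  intro x hx
  rw [Finset.mem_pow] at hx
  obtain ⟨f, rfl⟩ := hx
  refine Finset.mem_image.2 ⟨fun i => (f i : ℚ), Fintype.mem_piFinset.2 fun i => h (f i).2, ?_⟩
  rw [List.prod_ofFn]

/-- sums of `r` elements, or products with arbitrary sets -/
theorem fin1 (ht : Tame 𝒢) (k r D : ℕ) (ε : ℝ) (hε : 0 < ε) :
    ∃ c : ℝ, 0 < c ∧ ∀ θ : Θ, ∀ l : ℚ, ∀ A : Finset ℚ, A.Nonempty →
      (∀ a ∈ A, ∃ x, SS (𝒢 θ) k (A.card ^ D) x ∧ a = l * x) →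
      c * (A.card : ℝ) ^ r ≤ (nSum r A).card ∨
      ∀ C : Finset ℚ, C.Nonempty → (∀ y ∈ C, y ≠ 0) →
        c * ((A.card : ℝ) * C.card) ^ (1 - ε) ≤ (A * C).card := by
  classical
  obtain ⟨K, hK, h1⟩ := main ht k r (ε / (D + 1)) (by positivity)
  refine ⟨1 / (K + 1), by positivity, fun θ l A hAn hA => ?_⟩
  have hK1 : (1 : ℝ) ≤ K + 1 := by linarith
  have ha1 : (1 : ℝ) ≤ A.card := by exact_mod_cast hAn.card_pos
  by_cases hl : l = 0
  · left
    have h2 : A ⊆ {0} := by
      intro a ha
      obtain ⟨x, _, rfl⟩ := hA a ha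
      rw [hl, zero_mul]
      exact Finset.mem_singleton_self _
    have h3 : A.card = 1 := by
      have g1 : A.card ≤ 1 := by simpa using Finset.card_le_card h2
      have g2 := hAn.card_pos
      omega
    have h4 : (1 : ℝ) ≤ (nSum r A).card := by exact_mod_cast (nSum_nonempty r hAn).card_pos
    rw [h3, Nat.cast_one, one_pow, mul_one]
    refine le_trans ?_ h4
    rw [div_le_one (by positivity)]
    exact hK1
  · set X : Finset ℚ := A.image fun a => l⁻¹ * a with hX
    have hinj : Function.Injective (fun a : ℚ => l⁻¹ * a) :=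
      mul_right_injective₀ (inv_ne_zero hl)
    have hXA : X.image (fun a => l * a) = A := by
      rw [hX, Finset.image_image]
      have : ((fun a => l * a) ∘ fun a => l⁻¹ * a) = (id : ℚ → ℚ) := by
        funext a
        simp [mul_inv_cancel_left₀ hl]
      rw [this, Finset.image_id]
    have hXc : X.card = A.card := Finset.card_image_of_injective _ hinj
    have hXss : ∀ x ∈ X, SS (𝒢 θ) k (A.card ^ D) x := by
      intro x hx
      obtain ⟨a, ha, rfl⟩ := Finset.mem_image.1 hx
      obtain ⟨y, hy, rfl⟩ := hA a ha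
      simpa [inv_mul_cancel_left₀ hl] using hy
    rcases h1 (A.card ^ D) (Nat.pow_pos hAn.card_pos) θ X hXss with h2 | h2
    · left
      have h3 : (nSum r A).card = (nSum r X).card := by
        rw [← hXA, nSum_image, Finset.card_image_of_injective _ (mul_right_injective₀ hl)]
      rw [h3, one_div, inv_mul_le_iff₀ (by positivity)]
      rw [hXc] at h2
      exact h2.trans (mul_le_mul_of_nonneg_right (by linarith) (Nat.cast_nonneg _))
    · right
      intro C hCn hC
      have h3 := h2 C hC
      have h4 : (X * C).card = (A * C).card := by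
        have : X * C = (A * C).image fun a => l⁻¹ * a := by
          ext z
          simp only [hX, Finset.mem_mul, Finset.mem_image]
          constructor
          · rintro ⟨_, ⟨a, ha, rfl⟩, b, hb, rfl⟩
            exact ⟨a * b, ⟨a, ha, b, hb, rfl⟩, by ring⟩
          · rintro ⟨_, ⟨a, ha, b, hb, rfl⟩, rfl⟩
            exact ⟨_, ⟨a, ha, rfl⟩, b, hb, by ring⟩
        rw [this, Finset.card_image_of_injective _ hinj]
      rw [hXc, h4] at h3
      have hc1 : (1 : ℝ) ≤ C.card := by exact_mod_cast hCn.card_pos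
      set Y : ℝ := (A.card : ℝ) * C.card with hY
      have hY1 : 1 ≤ Y := by rw [hY]; nlinarith
      have hY0 : 0 < Y := by linarith
      have h5 : (((A.card ^ D : ℕ) : ℝ) * A.card * C.card) ^ (ε / (D + 1)) ≤ Y ^ ε := by
        have h6 : ((A.card ^ D : ℕ) : ℝ) * A.card * C.card ≤ Y ^ (D + 1) := by
          have h7 : (A.card : ℝ) ^ D ≤ Y ^ D := by
            refine pow_le_pow_left₀ (by positivity) ?_ _
            rw [hY]; nlinarith
          calc ((A.card ^ D : ℕ) : ℝ) * A.card * C.card = (A.card : ℝ) ^ D * Y := by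
                rw [hY]; push_cast; ring
            _ ≤ Y ^ D * Y := by gcongr
            _ = _ := by ring
        calc (((A.card ^ D : ℕ) : ℝ) * A.card * C.card) ^ (ε / (D + 1))
            ≤ (Y ^ (D + 1)) ^ (ε / (D + 1)) := Real.rpow_le_rpow (by positivity) h6 (by positivity)
          _ = _ := by
              rw [← Real.rpow_natCast Y, ← Real.rpow_mul hY0.le]
              congr 1
              push_cast
              field_simp
      rw [Real.rpow_sub hY0, Real.rpow_one, one_div, inv_mul_le_iff₀ (by positivity),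
        div_le_iff₀ (by positivity)]
      calc Y ≤ K * (((A.card ^ D : ℕ) : ℝ) * A.card * C.card) ^ (ε / (D + 1)) * (A * C).card := h3
        _ ≤ (K + 1) * Y ^ ε * (A * C).card := by
            gcongr
            linarith
        _ = _ := by ring

/-- the Erdős-Szemerédi conjecture for `r` summands and factors -/
theorem fin2 (ht : Tame 𝒢) (k r D : ℕ) (ε : ℝ) (hε : 0 < ε) :
    ∃ c : ℝ, 0 < c ∧ ∀ θ : Θ, ∀ l : ℚ, ∀ A : Finset ℚ, A.Nonempty →
      (∀ a ∈ A, ∃ x, SS (𝒢 θ) k (A.card ^ D) x ∧ a = l * x) →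
      c * (A.card : ℝ) ^ ((r : ℝ) - ε) ≤ max ((nSum r A).card : ℝ) ((nProd r A).card : ℝ) := by
  classical
  set ε' : ℝ := ε / ((r + 1) ^ 2) with hε'
  have hε'0 : 0 < ε' := by positivity
  obtain ⟨c, hc, h1⟩ := fin1 ht k r D ε' hε'0
  set c' : ℝ := min (min c 1) ((c / 4) ^ r) with hc'
  have hc'0 : 0 < c' := by positivity
  refine ⟨c', hc'0, fun θ l A hAn hA => ?_⟩
  have ha1 : (1 : ℝ) ≤ A.card := by exact_mod_cast hAn.card_pos
  have ha0 : (0 : ℝ) < A.card := by linarith
  rcases h1 θ l A hAn hA with h2 | h2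
  · refine le_trans ?_ (le_max_left _ _)
    refine le_trans ?_ h2
    rw [← Real.rpow_natCast]
    refine mul_le_mul ((min_le_left _ _).trans (min_le_left _ _)) ?_ (by positivity) hc.le
    exact Real.rpow_le_rpow_of_exponent_le ha1 (by linarith)
  · rcases Nat.lt_or_ge A.card 2 with hA2 | hA2
    · refine le_trans ?_ (le_max_left _ _)
      have h3 : A.card = 1 := by
        have := hAn.card_pos
        omega
      have h4 : (1 : ℝ) ≤ (nSum r A).card := by exact_mod_cast (nSum_nonempty r hAn).card_pos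
      rw [h3, Nat.cast_one, Real.one_rpow, mul_one]
      exact ((min_le_left _ _).trans (min_le_right _ _)).trans h4
    · refine le_trans ?_ (le_max_right _ _)
      set B : Finset ℚ := A.erase 0 with hB
      have hB0 : ∀ y ∈ B, y ≠ 0 := fun y hy => (Finset.mem_erase.1 hy).1
      have hBc : A.card ≤ 2 * B.card := by
        have := Finset.pred_card_le_card_erase (s := A) (a := 0)
        rw [← hB] at this
        omega
      have hBn : B.Nonempty := by
        rw [← Finset.card_pos]; omega
      have hBpow : ∀ j, (∀ y ∈ B ^ j, y ≠ 0) ∧ (B ^ j).Nonempty := by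
        intro j
        induction j with
        | zero => simp
        | succ j ih =>
          rw [pow_succ]
          refine ⟨?_, ih.2.mul hBn⟩
          intro y hy
          obtain ⟨a, ha, b, hb, rfl⟩ := Finset.mem_mul.1 hy
          exact mul_ne_zero (ih.1 a ha) (hB0 b hb)
      have hBle : (B.card : ℝ) ≤ A.card := by
        exact_mod_cast Finset.card_le_card (Finset.erase_subset _ _)
      have hstep : ∀ j ≤ r, (c / 4) ^ j * (A.card : ℝ) ^ ((j : ℝ) * (1 - (r + 1) * ε')) ≤
          (B ^ j).card := by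
        intro j
        induction j with
        | zero => intro _; simp
        | succ j ih =>
          intro hj
          have ih' := ih (by omega)
          have h3 := h2 (B ^ j) (hBpow j).2 (hBpow j).1
          have hjc : (1 : ℝ) ≤ (B ^ j).card := by exact_mod_cast (hBpow j).2.card_pos
          have hjc0 : (0 : ℝ) < (B ^ j).card := by linarith
          -- `A * B ^ j` has at most one element more than `B ^ (j + 1)`
          have h4 : (A * B ^ j).card ≤ 2 * (B ^ (j + 1)).card := by
            have h5 : A * B ^ j ⊆ insert 0 (B ^ (j + 1)) := by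
              intro z hz
              obtain ⟨a, ha, b, hb, rfl⟩ := Finset.mem_mul.1 hz
              rw [Finset.mem_insert]
              by_cases h0 : a = 0
              · left; rw [h0, zero_mul]
              · right
                rw [pow_succ']
                exact Finset.mul_mem_mul (Finset.mem_erase.2 ⟨h0, ha⟩) hb
            have h6 := (Finset.card_le_card h5).trans (Finset.card_insert_le _ _)
            have h7 := (hBpow (j + 1)).2.card_pos
            omega
          have h4' : ((A * B ^ j).card : ℝ) ≤ 2 * (B ^ (j + 1)).card := by exact_mod_cast h4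
          have h8 : (A.card : ℝ) * (B ^ j).card ≤ (A.card : ℝ) ^ (r + 1) := by
            have g1 : ((B ^ j).card : ℝ) ≤ (A.card : ℝ) ^ r := by
              calc ((B ^ j).card : ℝ) ≤ (B.card : ℝ) ^ j := by exact_mod_cast card_pow_le' B j
                _ ≤ (A.card : ℝ) ^ j := by gcongr
                _ ≤ (A.card : ℝ) ^ r := pow_le_pow_right₀ ha1 (by omega)
            calc (A.card : ℝ) * (B ^ j).card ≤ A.card * (A.card : ℝ) ^ r := by gcongr
              _ = _ := by ring
          have h9 : ((A.card : ℝ) * (B ^ j).card) ^ ε' ≤ (A.card : ℝ) ^ ((r + 1) * ε') := by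
            calc ((A.card : ℝ) * (B ^ j).card) ^ ε' ≤ ((A.card : ℝ) ^ (r + 1)) ^ ε' :=
                  Real.rpow_le_rpow (by positivity) h8 hε'0.le
              _ = _ := by
                  rw [← Real.rpow_natCast, ← Real.rpow_mul ha0.le]
                  push_cast
                  rfl
          have h10 : c * (A.card * (B ^ j).card) ≤
              (A * B ^ j).card * (A.card : ℝ) ^ ((r + 1) * ε') := by
            have g0 : (0 : ℝ) < A.card * (B ^ j).card := by positivity
            rw [Real.rpow_sub g0, Real.rpow_one, ← mul_div_assoc,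
              div_le_iff₀ (by positivity)] at h3
            exact h3.trans (mul_le_mul_of_nonneg_left h9 (Nat.cast_nonneg _))
          have h11 : (A.card : ℝ) ^ (((j + 1 : ℕ) : ℝ) * (1 - (r + 1) * ε')) =
              (A.card : ℝ) ^ ((j : ℝ) * (1 - (r + 1) * ε')) *
                (A.card / (A.card : ℝ) ^ ((r + 1) * ε')) := by
            rw [show (A.card : ℝ) / (A.card : ℝ) ^ ((r + 1) * ε') =
              (A.card : ℝ) ^ (1 - (r + 1) * ε') by rw [Real.rpow_sub ha0, Real.rpow_one],
              ← Real.rpow_add ha0]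
            congr 1
            push_cast
            ring
          have hpe : 0 < (A.card : ℝ) ^ ((r + 1) * ε') := by positivity
          calc (c / 4) ^ (j + 1) * (A.card : ℝ) ^ (((j + 1 : ℕ) : ℝ) * (1 - (r + 1) * ε'))
              = ((c / 4) ^ j * (A.card : ℝ) ^ ((j : ℝ) * (1 - (r + 1) * ε'))) *
                (c / 4 * (A.card / (A.card : ℝ) ^ ((r + 1) * ε'))) := by
                rw [h11, pow_succ]; ring
            _ ≤ (B ^ j).card * (c / 4 * (A.card / (A.card : ℝ) ^ ((r + 1) * ε'))) := by gcongr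
            _ = (c * (A.card * (B ^ j).card)) / (4 * (A.card : ℝ) ^ ((r + 1) * ε')) := by
                field_simp
            _ ≤ ((A * B ^ j).card * (A.card : ℝ) ^ ((r + 1) * ε')) /
                (4 * (A.card : ℝ) ^ ((r + 1) * ε')) := by gcongr
            _ = (A * B ^ j).card / 4 := by field_simp
            _ ≤ (B ^ (j + 1)).card := by
                have : (0 : ℝ) ≤ (B ^ (j + 1)).card := Nat.cast_nonneg _
                linarith
      have h12 := hstep r le_rfl
      have h13 : ((B ^ r).card : ℝ) ≤ (nProd r A).card := by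
        exact_mod_cast Finset.card_le_card (pow_subset_nProd r A B (Finset.erase_subset _ _))
      refine le_trans ?_ (h12.trans h13)
      refine mul_le_mul (min_le_right _ _) ?_ (by positivity) (by positivity)
      refine Real.rpow_le_rpow_of_exponent_le ha1 ?_
      have hr0 : (0 : ℝ) ≤ r := Nat.cast_nonneg r
      have h14 : (r : ℝ) * ((r + 1) * ε') ≤ ε := by
        rw [hε']
        have h15 : (r : ℝ) * ((r + 1) * (ε / ((r : ℝ) + 1) ^ 2)) = (r / (r + 1)) * ε := by
          field_simp
        rw [h15]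
        have h16 : (r : ℝ) / (r + 1) ≤ 1 := by
          rw [div_le_one (by positivity)]; linarith
        nlinarith
      nlinarith

/-- affine images -/
theorem fin3 (ht : Tame 𝒢) (k D : ℕ) (ε : ℝ) (hε : 0 < ε) :
    ∃ c : ℝ, 0 < c ∧ ∀ θ : Θ, ∀ l m : ℚ, ∀ A : Finset ℚ, A.Nonempty →
      (∀ a ∈ A, ∃ x, SS (𝒢 θ) k (A.card ^ D) x ∧ a = l * x + m) →
      c * (A.card : ℝ) ^ 2 ≤ (A + A).card ∨
      c * (A.card : ℝ) ^ (2 - ε) ≤ (A * A).card := by
  classical
  obtain ⟨K, hK, h1⟩ := affine ht k (ε / (D + 1)) (by positivity)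
  refine ⟨1 / K, by positivity, fun θ l m A hAn hA => ?_⟩
  have ha1 : (1 : ℝ) ≤ A.card := by exact_mod_cast hAn.card_pos
  have ha0 : (0 : ℝ) < A.card := by linarith
  rcases h1 (A.card ^ D) (Nat.pow_pos hAn.card_pos) θ l m A hA with h2 | h2
  · left
    rw [one_div, inv_mul_le_iff₀ hK]
    exact h2
  · right
    have h5 : (((A.card ^ D : ℕ) : ℝ) * A.card) ^ (ε / (D + 1)) = (A.card : ℝ) ^ ε := by
      have : ((A.card ^ D : ℕ) : ℝ) * A.card = (A.card : ℝ) ^ (D + 1) := by push_cast; ring
      rw [this, ← Real.rpow_natCast, ← Real.rpow_mul ha0.le]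
      congr 1
      push_cast
      field_simp
    rw [h5] at h2
    rw [Real.rpow_sub ha0, one_div, inv_mul_le_iff₀ hK, div_le_iff₀ (by positivity)]
    have h6 : (A.card : ℝ) ^ (2 : ℝ) = (A.card : ℝ) ^ 2 := by
      rw [← Real.rpow_natCast]; norm_num
    rw [h6]
    calc (A.card : ℝ) ^ 2 ≤ K * (A.card : ℝ) ^ ε * (A * A).card := h2
      _ = _ := by ring

end Pool.Agent.Zk30.FU
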